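import Pool.Agent.Helper3.ThinRep

set_option autoImplicit false
set_option linter.unusedSectionVars false

namespace Pool.Agent.Helper44.LB

open Finset Pool.Agent.Helper3.Thin

variable {q : ℕ → ℕ} [hqp : ∀ k, Fact (q k).Prime] {Γ : ∀ k, Finset (ZMod (q k) × ZMod (q k))}

lemma q_mono (hA : Adm q Γ) : Monotone q := monotone_nat_of_le_succ (fun k => by
  have := hA.grow k
  omega)

lemma q_three (hA : Adm q Γ) (j : ℕ) : 8 * q j ≤ q (j + 3) := by
  have h1 := hA.grow j
  have h2 := hA.grow (j + 1)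
  have h3 := hA.grow (j + 2)
  have e1 : j + 1 + 1 = j + 2 := rfl
  have e2 : j + 2 + 1 = j + 3 := rfl
  rw [e1] at h2
  rw [e2] at h3
  omega

/-- `x` belongs to the block of scale `j`. -/
def Blk (Γ : ∀ k, Finset (ZMod (q k) × ZMod (q k))) {K : ℕ} (τ : Om q K) (j x : ℕ) : Prop :=
  ∃ hj : j < K, ∃ ε : Lab, ∃ a, Base Γ τ ⟨j, hj⟩ a ∧ a + off (q j) ε = x

lemma Blk.ge {K : ℕ} {τ : Om q K} {j x : ℕ} (h : Blk Γ τ j x) : q j ^ 4 ≤ x := by
  obtain ⟨hj, ε, a, _, h⟩ := h
  have := off_ge (q j) ε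
  omega

lemma Blk.le {K : ℕ} {τ : Om q K} {j x : ℕ} (h : Blk Γ τ j x) : x ≤ 514 * q j ^ 4 := by
  obtain ⟨hj, ε, a, ha, h⟩ := h
  have h1 := off_le (q j) (hqp j).out.two_le ε
  have h2 : a < q j ^ 4 := ha.1
  omega

/-- Two elements of one block. -/
lemma blk_count (hA : Adm q Γ) {K : ℕ} (τ : Om q K) (k n : ℕ) (S : Finset (ℕ × ℕ))
    (hS : ∀ p ∈ S, Blk Γ τ k p.1 ∧ Blk Γ τ k p.2 ∧ p.1 + p.2 = n) :
    S.card ≤ 4096 * (4096 * 1296) := by
  classical
  rcases S.eq_empty_or_nonempty with rfl | hne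
  · simp
  have hk : k < K := by
    obtain ⟨p, hp⟩ := hne
    exact (hS p hp).1.1
  have hx : ∀ x : ℕ, ∃ ε : Lab, ∃ a : ℕ, Blk Γ τ k x → Base Γ τ ⟨k, hk⟩ a ∧ a + off (q k) ε = x := by
    intro x
    by_cases h : Blk Γ τ k x
    · obtain ⟨_, ε, a, h1, h2⟩ := h
      exact ⟨ε, a, fun _ => ⟨h1, h2⟩⟩
    · exact ⟨(0, 0, 0, 0), 0, fun h' => absurd h' h⟩
  choose E a hEa using hx
  have hfib := card_le_mul_card_image (f := fun p : ℕ × ℕ => (E p.1, E p.2)) S 1296 (by
    intro e _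
    set T := S.filter (fun p => (E p.1, E p.2) = e) with hT
    have hTS : ∀ p ∈ T, p ∈ S ∧ E p.1 = e.1 ∧ E p.2 = e.2 := by
      intro p hp
      rw [hT, mem_filter] at hp
      exact ⟨hp.1, by rw [← hp.2], by rw [← hp.2]⟩
    have hinj : Set.InjOn (fun p : ℕ × ℕ => (a p.1, a p.2)) (T : Set (ℕ × ℕ)) := by
      intro p hp p' hp' h
      obtain ⟨i1, i2, i3⟩ := hTS p hp
      obtain ⟨j1, j2, j3⟩ := hTS p' hp'
      simp only [Prod.mk.injEq] at h
      have u1 := (hEa p.1 (hS p i1).1).2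
      have u2 := (hEa p.2 (hS p i1).2.1).2
      have v1 := (hEa p'.1 (hS p' j1).1).2
      have v2 := (hEa p'.2 (hS p' j1).2.1).2
      rw [i2] at u1
      rw [i3] at u2
      rw [j2] at v1
      rw [j3] at v2
      exact Prod.ext (by omega) (by omega)
    rw [← card_image_of_injOn hinj]
    apply same_scale (hA.good k) (fun u => τ ⟨⟨k, hk⟩, u⟩) (n - off (q k) e.1 - off (q k) e.2)
    · intro r hr
      rw [mem_image] at hr
      obtain ⟨p, hp, rfl⟩ := hr
      obtain ⟨i1, i2, i3⟩ := hTS p hp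
      have u1 := (hEa p.1 (hS p i1).1).2
      have u2 := (hEa p.2 (hS p i1).2.1).2
      rw [i2] at u1
      rw [i3] at u2
      have u3 := (hS p i1).2.2
      simp only
      omega
    · intro r hr
      rw [mem_image] at hr
      obtain ⟨p, hp, rfl⟩ := hr
      obtain ⟨i1, i2, i3⟩ := hTS p hp
      exact (hEa p.1 (hS p i1).1).1
    · intro r hr
      rw [mem_image] at hr
      obtain ⟨p, hp, rfl⟩ := hr
      obtain ⟨i1, i2, i3⟩ := hTS p hp
      exact (hEa p.2 (hS p i1).2.1).1)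
  refine hfib.trans ?_
  have himg : (S.image (fun p : ℕ × ℕ => (E p.1, E p.2))).card ≤ 4096 * 4096 := by
    refine (Finset.card_le_univ _).trans ?_
    rw [Fintype.card_prod, card_Lab]
  calc 1296 * (S.image (fun p : ℕ × ℕ => (E p.1, E p.2))).card ≤ 1296 * (4096 * 4096) :=
        Nat.mul_le_mul_left _ himg
    _ ≤ _ := by norm_num

/-- Every finite part of the construction has a good scale function. -/
theorem scales (hA : Adm q Γ) {K : ℕ} (τ : Om q K) (F : Finset ℕ)
    (hF : ∀ a ∈ F, a ∈ Ak Γ τ ∨ a ≤ 4 * q 0 ^ 4) :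
    ∃ s : ℕ → ℕ, (∀ a ∈ F, ∀ b ∈ F, ∀ c ∈ F, ∀ d ∈ F, a + b = c + d →
      s b ≤ max (s c) (s d) + 2) ∧
    ∀ k n, ((F ×ˢ F).filter (fun p => s p.1 = k ∧ s p.2 = k ∧ p.1 + p.2 = n)).card ≤
      4096 * (4096 * 1296) + 2 * (4 * q 0 ^ 4 + 1) := by
  classical
  set N0 := 4 * q 0 ^ 4 with hN0
  have hx : ∀ x : ℕ, ∃ j : ℕ, (x ≤ N0 → j = 0) ∧ (x ∈ F → N0 < x → Blk Γ τ j x) := by
    intro x
    by_cases h1 : x ≤ N0
    · exact ⟨0, fun _ => rfl, fun _ h => absurd h (by omega)⟩
    · by_cases h2 : x ∈ F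
      · rcases hF x h2 with h | h
        · obtain ⟨j, ε, a, h3, h4⟩ := h
          exact ⟨j, fun h => absurd h h1, fun _ _ => ⟨j.isLt, ε, a, h3, h4⟩⟩
        · exact absurd h h1
      · exact ⟨0, fun _ => rfl, fun h => absurd h h2⟩
  choose s hs0 hs1 using hx
  have hq0 : 0 < q 0 := (hqp 0).out.pos
  refine ⟨s, ?_, ?_⟩
  · intro a ha b hb c hc d hd habcd
    by_contra hcon
    push Not at hcon
    have hsb : s b ≠ 0 := by omega
    have hb0 : N0 < b := by
      by_contra h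
      exact hsb (hs0 b (by omega))
    have hB := hs1 b hb hb0
    have hBge := hB.ge
    -- the larger of `c`, `d`
    obtain ⟨y, hy, hyF, hys⟩ : ∃ y, b ≤ 2 * y ∧ y ∈ F ∧ s y ≤ max (s c) (s d) := by
      rcases le_total c d with h | h
      · exact ⟨d, by omega, hd, le_max_right _ _⟩
      · exact ⟨c, by omega, hc, le_max_left _ _⟩
    rcases le_or_gt y N0 with h | h
    · have e1 : q 1 ≤ q (s b) := q_mono hA (by omega)
      have e2 : 2 * q 0 ≤ q 1 := hA.grow 0
      have e3 : (2 * q 0) ^ 4 ≤ q (s b) ^ 4 := Nat.pow_le_pow_left (e2.trans e1) 4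
      have e4 : (2 * q 0) ^ 4 = 16 * q 0 ^ 4 := by ring
      have e5 : 0 < q 0 ^ 4 := by positivity
      omega
    · have hY := (hs1 y hyF h).le
      have e1 : q (s y + 3) ≤ q (s b) := q_mono hA (by omega)
      have e2 := q_three hA (s y)
      have e3 : (8 * q (s y)) ^ 4 ≤ q (s b) ^ 4 := Nat.pow_le_pow_left (e2.trans e1) 4
      have e4 : (8 * q (s y)) ^ 4 = 4096 * q (s y) ^ 4 := by ring
      have e5 : 0 < q (s y) ^ 4 := by
        have := (hqp (s y)).out.pos
        positivity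
      omega
  · intro k n
    set S := (F ×ˢ F).filter (fun p => s p.1 = k ∧ s p.2 = k ∧ p.1 + p.2 = n) with hS
    set S1 := S.filter (fun p => N0 < p.1 ∧ N0 < p.2) with hS1
    set Y : Finset (ℕ × ℕ) := (range (N0 + 1)).image (fun a => (a, n - a)) with hY
    set Z : Finset (ℕ × ℕ) := (range (N0 + 1)).image (fun b => (n - b, b)) with hZ
    have hsub : S ⊆ S1 ∪ (Y ∪ Z) := by
      intro p hp
      have hp' := hp
      rw [hS, mem_filter] at hp'
      obtain ⟨_, _, _, hpn⟩ := hp'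
      rw [mem_union, mem_union]
      by_cases h1 : p.1 ≤ N0
      · right; left
        rw [hY, mem_image]
        refine ⟨p.1, by rw [mem_range]; omega, ?_⟩
        refine Prod.ext rfl ?_
        simp only
        omega
      · by_cases h2 : p.2 ≤ N0
        · right; right
          rw [hZ, mem_image]
          refine ⟨p.2, by rw [mem_range]; omega, ?_⟩
          refine Prod.ext ?_ rfl
          simp only
          omega
        · left
          rw [hS1, mem_filter]
          exact ⟨hp, by omega, by omega⟩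
    have hYc : Y.card ≤ N0 + 1 := by
      rw [hY]
      exact card_image_le.trans (by rw [card_range])
    have hZc : Z.card ≤ N0 + 1 := by
      rw [hZ]
      exact card_image_le.trans (by rw [card_range])
    have hS1c : S1.card ≤ 4096 * (4096 * 1296) := by
      apply blk_count hA τ k n
      intro p hp
      rw [hS1, mem_filter, hS, mem_filter, mem_product] at hp
      obtain ⟨⟨⟨f1, f2⟩, f3, f4, f5⟩, f6, f7⟩ := hp
      refine ⟨?_, ?_, f5⟩
      · rw [← f3]
        exact hs1 _ f1 f6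
      · rw [← f4]
        exact hs1 _ f2 f7
    calc S.card ≤ (S1 ∪ (Y ∪ Z)).card := card_le_card hsub
      _ ≤ S1.card + (Y ∪ Z).card := card_union_le _ _
      _ ≤ S1.card + (Y.card + Z.card) := Nat.add_le_add_left (card_union_le _ _) _
      _ ≤ _ := by omega

end Pool.Agent.Helper44.LB
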