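import Pool.Agent.Helper44.LB.LP

set_option autoImplicit false

namespace Pool.Agent.Helper44.LB

open Finset

/-- The sum form. -/
lemma En_sum (F : Finset ℕ) (w : ℕ → ℝ) : En F w = ∑ p ∈ F ×ˢ F, ∑ r ∈ F ×ˢ F,
    if p.1 + p.2 = r.1 + r.2 then (w p.1 * w p.2) * (w r.1 * w r.2) else 0 := by
  rw [En_eq]
  simp_rw [Finset.sum_product]
  refine Finset.sum_congr rfl fun a _ => Finset.sum_congr rfl fun b _ =>
    Finset.sum_congr rfl fun c _ => Finset.sum_congr rfl fun d _ => ?_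
  split_ifs
  · ring
  · rfl

/-- A block with few representations has small energy. -/
lemma block_energy (F : Finset ℕ) (w : ℕ → ℝ) (g : ℕ)
    (hg : ∀ n, ((F ×ˢ F).filter (fun p => w p.1 ≠ 0 ∧ w p.2 ≠ 0 ∧ p.1 + p.2 = n)).card ≤ g) :
    En F w ≤ g * (∑ a ∈ F, w a ^ 2) ^ 2 := by
  classical
  rw [En_sum]
  set P := F ×ˢ F with hP
  set x : ℕ × ℕ → ℝ := fun p => w p.1 * w p.2 with hx
  have key : ∑ p ∈ P, ∑ r ∈ P,
      (if p.1 + p.2 = r.1 + r.2 ∧ x r ≠ 0 then x p ^ 2 else 0) ≤ g * ∑ p ∈ P, x p ^ 2 := by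
    rw [Finset.mul_sum]
    refine Finset.sum_le_sum fun p _ => ?_
    rw [← Finset.sum_filter, Finset.sum_const, nsmul_eq_mul]
    apply mul_le_mul_of_nonneg_right _ (sq_nonneg _)
    have h := hg (p.1 + p.2)
    have h2 : (P.filter (fun r => p.1 + p.2 = r.1 + r.2 ∧ x r ≠ 0)).card ≤ g := by
      refine (Finset.card_le_card ?_).trans h
      intro r hr
      rw [mem_filter] at hr ⊢
      refine ⟨hr.1, ?_, ?_, hr.2.1.symm⟩
      · intro h0
        apply hr.2.2
        rw [hx]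
        simp only
        rw [h0, zero_mul]
      · intro h0
        apply hr.2.2
        rw [hx]
        simp only
        rw [h0, mul_zero]
    exact_mod_cast h2
  have key2 : ∑ p ∈ P, ∑ r ∈ P,
      (if p.1 + p.2 = r.1 + r.2 ∧ x p ≠ 0 then x r ^ 2 else 0) ≤ g * ∑ p ∈ P, x p ^ 2 := by
    refine le_trans (le_of_eq ?_) key
    rw [Finset.sum_comm]
    refine Finset.sum_congr rfl fun p _ => Finset.sum_congr rfl fun r _ => ?_
    by_cases h : r.1 + r.2 = p.1 + p.2 ∧ x r ≠ 0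
    · rw [if_pos h, if_pos ⟨h.1.symm, h.2⟩]
    · rw [if_neg h, if_neg (fun h' => h ⟨h'.1.symm, h'.2⟩)]
  have hsum : ∑ p ∈ P, x p ^ 2 = (∑ a ∈ F, w a ^ 2) ^ 2 := by
    rw [hP, Finset.sum_product, sq (∑ a ∈ F, w a ^ 2), Finset.sum_mul_sum]
    refine Finset.sum_congr rfl fun a _ => Finset.sum_congr rfl fun b _ => ?_
    rw [hx]
    ring
  have hle : ∑ p ∈ P, ∑ r ∈ P,
      (if p.1 + p.2 = r.1 + r.2 then (w p.1 * w p.2) * (w r.1 * w r.2) else 0) ≤
      (1 / 2) * ∑ p ∈ P, ∑ r ∈ P,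
        (if p.1 + p.2 = r.1 + r.2 ∧ x r ≠ 0 then x p ^ 2 else 0) +
      (1 / 2) * ∑ p ∈ P, ∑ r ∈ P,
        (if p.1 + p.2 = r.1 + r.2 ∧ x p ≠ 0 then x r ^ 2 else 0) := by
    rw [Finset.mul_sum, Finset.mul_sum, ← Finset.sum_add_distrib]
    refine Finset.sum_le_sum fun p _ => ?_
    rw [Finset.mul_sum, Finset.mul_sum, ← Finset.sum_add_distrib]
    refine Finset.sum_le_sum fun r _ => ?_
    by_cases h : p.1 + p.2 = r.1 + r.2
    · rw [if_pos h]
      by_cases hr : x r ≠ 0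
      · by_cases hp : x p ≠ 0
        · rw [if_pos ⟨h, hr⟩, if_pos ⟨h, hp⟩]
          change x p * x r ≤ _
          nlinarith [sq_nonneg (x p - x r)]
        · have h0 : x p = 0 := not_not.1 hp
          rw [if_pos ⟨h, hr⟩, if_neg (fun h' => hp h'.2)]
          change x p * x r ≤ _
          rw [h0]
          simp
      · have h0 : x r = 0 := not_not.1 hr
        rw [if_neg (fun h' => hr h'.2)]
        change x p * x r ≤ _
        rw [h0, mul_zero]
        split_ifs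
        · simp
        · simp
    · rw [if_neg h, if_neg (fun h' => h h'.1), if_neg (fun h' => h h'.1)]
      simp
  rw [← hsum]
  linarith

/-- The part of `w` on the scale `K`. -/
noncomputable def wK (s : ℕ → ℕ) (w : ℕ → ℝ) (K : ℕ) (a : ℕ) : ℝ := if s a = K then w a else 0

lemma wK_nonneg (s : ℕ → ℕ) {w : ℕ → ℝ} (hw : ∀ a, 0 ≤ w a) (K a : ℕ) : 0 ≤ wK s w K a := by
  unfold wK
  split_ifs
  · exact hw a
  · exact le_rfl

/-- Close scales. -/
def Cl (s : ℕ → ℕ) (x y : ℕ) : Prop := s x ≤ s y + 2 ∧ s y ≤ s x + 2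

instance (s : ℕ → ℕ) (x y : ℕ) : Decidable (Cl s x y) := by
  unfold Cl
  infer_instance

lemma step_A (F : Finset ℕ) (s : ℕ → ℕ) (w : ℕ → ℝ) (hw : ∀ a, 0 ≤ w a)
    (h1 : ∀ a ∈ F, ∀ b ∈ F, ∀ c ∈ F, ∀ d ∈ F, a + b = c + d → s b ≤ max (s c) (s d) + 2) :
    En F w ≤ 4 * ∑ a ∈ F, ∑ b ∈ F, ∑ c ∈ F, ∑ d ∈ F,
      if a + b = c + d ∧ Cl s b d then w a * w b * w c * w d else 0 := by
  rw [En_eq]
  set T := ∑ a ∈ F, ∑ b ∈ F, ∑ c ∈ F, ∑ d ∈ F,
      (if a + b = c + d ∧ Cl s b d then w a * w b * w c * w d else 0) with hT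
  have t2 : ∑ a ∈ F, ∑ b ∈ F, ∑ c ∈ F, ∑ d ∈ F,
      (if a + b = c + d ∧ Cl s b c then w a * w b * w c * w d else 0) = T := by
    rw [hT]
    refine Finset.sum_congr rfl fun a _ => Finset.sum_congr rfl fun b _ => ?_
    rw [Finset.sum_comm]
    refine Finset.sum_congr rfl fun c _ => Finset.sum_congr rfl fun d _ => ?_
    by_cases h : a + b = c + d ∧ Cl s b d
    · rw [if_pos h, if_pos ⟨by omega, h.2⟩]
      ring
    · rw [if_neg h, if_neg (fun h' => h ⟨by omega, h'.2⟩)]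
  have t3 : ∑ a ∈ F, ∑ b ∈ F, ∑ c ∈ F, ∑ d ∈ F,
      (if a + b = c + d ∧ Cl s a d then w a * w b * w c * w d else 0) = T := by
    rw [hT, Finset.sum_comm]
    refine Finset.sum_congr rfl fun a _ => Finset.sum_congr rfl fun b _ =>
      Finset.sum_congr rfl fun c _ => Finset.sum_congr rfl fun d _ => ?_
    by_cases h : a + b = c + d ∧ Cl s b d
    · rw [if_pos h, if_pos ⟨by omega, h.2⟩]
      ring
    · rw [if_neg h, if_neg (fun h' => h ⟨by omega, h'.2⟩)]
  have t4 : ∑ a ∈ F, ∑ b ∈ F, ∑ c ∈ F, ∑ d ∈ F,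
      (if a + b = c + d ∧ Cl s a c then w a * w b * w c * w d else 0) = T := by
    rw [← t2, Finset.sum_comm]
    refine Finset.sum_congr rfl fun a _ => Finset.sum_congr rfl fun b _ =>
      Finset.sum_congr rfl fun c _ => Finset.sum_congr rfl fun d _ => ?_
    by_cases h : a + b = c + d ∧ Cl s b c
    · rw [if_pos h, if_pos ⟨by omega, h.2⟩]
      ring
    · rw [if_neg h, if_neg (fun h' => h ⟨by omega, h'.2⟩)]
  have hsum : 4 * T = ∑ a ∈ F, ∑ b ∈ F, ∑ c ∈ F, ∑ d ∈ F,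
      ((if a + b = c + d ∧ Cl s b d then w a * w b * w c * w d else 0) +
      (if a + b = c + d ∧ Cl s b c then w a * w b * w c * w d else 0) +
      (if a + b = c + d ∧ Cl s a d then w a * w b * w c * w d else 0) +
      (if a + b = c + d ∧ Cl s a c then w a * w b * w c * w d else 0)) := by
    simp_rw [Finset.sum_add_distrib]
    rw [t2, t3, t4]
    ring
  rw [hsum]
  refine Finset.sum_le_sum fun a ha => Finset.sum_le_sum fun b hb =>
    Finset.sum_le_sum fun c hc => Finset.sum_le_sum fun d hd => ?_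
  have hW : 0 ≤ w a * w b * w c * w d :=
    mul_nonneg (mul_nonneg (mul_nonneg (hw a) (hw b)) (hw c)) (hw d)
  have hite : ∀ (p : Prop) [Decidable p], 0 ≤ (if p then w a * w b * w c * w d else 0) := by
    intro p _
    split_ifs
    · exact hW
    · exact le_rfl
  by_cases h : a + b = c + d
  · rw [if_pos h]
    have e1 := h1 a ha b hb c hc d hd h
    have e2 := h1 b hb a ha c hc d hd (by omega)
    have e3 := h1 d hd c hc a ha b hb (by omega)
    have e4 := h1 c hc d hd a ha b hb (by omega)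
    have hcl : Cl s b d ∨ Cl s b c ∨ Cl s a d ∨ Cl s a c := by
      unfold Cl
      omega
    rcases hcl with h5 | h5 | h5 | h5
    · rw [if_pos ⟨h, h5⟩]
      have i2 := hite (a + b = c + d ∧ Cl s b c)
      have i3 := hite (a + b = c + d ∧ Cl s a d)
      have i4 := hite (a + b = c + d ∧ Cl s a c)
      linarith
    · rw [if_pos (show a + b = c + d ∧ Cl s b c from ⟨h, h5⟩)]
      have i2 := hite (a + b = c + d ∧ Cl s b d)
      have i3 := hite (a + b = c + d ∧ Cl s a d)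
      have i4 := hite (a + b = c + d ∧ Cl s a c)
      linarith
    · rw [if_pos (show a + b = c + d ∧ Cl s a d from ⟨h, h5⟩)]
      have i2 := hite (a + b = c + d ∧ Cl s b d)
      have i3 := hite (a + b = c + d ∧ Cl s b c)
      have i4 := hite (a + b = c + d ∧ Cl s a c)
      linarith
    · rw [if_pos (show a + b = c + d ∧ Cl s a c from ⟨h, h5⟩)]
      have i2 := hite (a + b = c + d ∧ Cl s b d)
      have i3 := hite (a + b = c + d ∧ Cl s b c)
      have i4 := hite (a + b = c + d ∧ Cl s a d)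
      linarith
  · rw [if_neg h]
    have i1 := hite (a + b = c + d ∧ Cl s b d)
    have i2 := hite (a + b = c + d ∧ Cl s b c)
    have i3 := hite (a + b = c + d ∧ Cl s a d)
    have i4 := hite (a + b = c + d ∧ Cl s a c)
    linarith

/-- Pairs of close scales. -/
def prs (F : Finset ℕ) (s : ℕ → ℕ) : Finset (ℕ × ℕ) :=
  ((F.image s) ×ˢ (F.image s)).filter (fun K => K.1 ≤ K.2 + 2 ∧ K.2 ≤ K.1 + 2)

lemma step_B (F : Finset ℕ) (s : ℕ → ℕ) (w : ℕ → ℝ) (hw : ∀ a, 0 ≤ w a) :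
    ∑ a ∈ F, ∑ b ∈ F, ∑ c ∈ F, ∑ d ∈ F,
      (if a + b = c + d ∧ Cl s b d then w a * w b * w c * w d else 0) ≤
    ∑ K ∈ prs F s, G F (wK s w K.1) (wK s w K.2) w w := by
  have e : ∑ a ∈ F, ∑ b ∈ F, ∑ c ∈ F, ∑ d ∈ F,
      (if a + b = c + d ∧ Cl s b d then w a * w b * w c * w d else 0) =
      ∑ p ∈ F ×ˢ F, ∑ r ∈ F ×ˢ F,
      (if p.1 + r.2 = r.1 + p.2 ∧ Cl s p.1 p.2 then (w p.1 * w p.2) * (w r.1 * w r.2) else 0) := by
    simp_rw [Finset.sum_product]
    calc ∑ a ∈ F, ∑ b ∈ F, ∑ c ∈ F, ∑ d ∈ F,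
        (if a + b = c + d ∧ Cl s b d then w a * w b * w c * w d else 0)
        = ∑ b ∈ F, ∑ a ∈ F, ∑ c ∈ F, ∑ d ∈ F,
        (if a + b = c + d ∧ Cl s b d then w a * w b * w c * w d else 0) := Finset.sum_comm
      _ = ∑ b ∈ F, ∑ a ∈ F, ∑ d ∈ F, ∑ c ∈ F,
        (if a + b = c + d ∧ Cl s b d then w a * w b * w c * w d else 0) :=
          Finset.sum_congr rfl fun b _ => Finset.sum_congr rfl fun a _ => Finset.sum_comm
      _ = ∑ b ∈ F, ∑ d ∈ F, ∑ a ∈ F, ∑ c ∈ F,
        (if a + b = c + d ∧ Cl s b d then w a * w b * w c * w d else 0) :=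
          Finset.sum_congr rfl fun b _ => Finset.sum_comm
      _ = ∑ b ∈ F, ∑ d ∈ F, ∑ c ∈ F, ∑ a ∈ F,
        (if a + b = c + d ∧ Cl s b d then w a * w b * w c * w d else 0) :=
          Finset.sum_congr rfl fun b _ => Finset.sum_congr rfl fun d _ => Finset.sum_comm
      _ = _ := by
          refine Finset.sum_congr rfl fun b _ => Finset.sum_congr rfl fun d _ =>
            Finset.sum_congr rfl fun c _ => Finset.sum_congr rfl fun a _ => ?_
          by_cases h : a + b = c + d ∧ Cl s b d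
          · rw [if_pos h, if_pos ⟨by omega, h.2⟩]
            ring
          · rw [if_neg h, if_neg (fun h' => h ⟨by omega, h'.2⟩)]
  rw [e]
  unfold G
  rw [Finset.sum_comm]
  have e2 : ∑ K ∈ prs F s, ∑ p ∈ F ×ˢ F, ∑ r ∈ F ×ˢ F,
      (if p.1 + r.2 = r.1 + p.2 then (wK s w K.1 p.1 * wK s w K.2 p.2) * (w r.1 * w r.2) else 0) =
      ∑ r ∈ F ×ˢ F, ∑ p ∈ F ×ˢ F, ∑ K ∈ prs F s,
      (if p.1 + r.2 = r.1 + p.2 then (wK s w K.1 p.1 * wK s w K.2 p.2) * (w r.1 * w r.2) else 0) := by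
    rw [Finset.sum_comm]
    calc _ = ∑ p ∈ F ×ˢ F, ∑ r ∈ F ×ˢ F, ∑ K ∈ prs F s,
      (if p.1 + r.2 = r.1 + p.2 then (wK s w K.1 p.1 * wK s w K.2 p.2) * (w r.1 * w r.2) else 0) :=
          Finset.sum_congr rfl fun p _ => Finset.sum_comm
      _ = _ := Finset.sum_comm
  rw [e2]
  refine Finset.sum_le_sum fun r _ => Finset.sum_le_sum fun p hp => ?_
  have hn : ∀ K ∈ prs F s, 0 ≤ (if p.1 + r.2 = r.1 + p.2 then
      (wK s w K.1 p.1 * wK s w K.2 p.2) * (w r.1 * w r.2) else 0) := by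
    intro K _
    split_ifs
    · exact mul_nonneg (mul_nonneg (wK_nonneg s hw _ _) (wK_nonneg s hw _ _))
        (mul_nonneg (hw _) (hw _))
    · exact le_rfl
  by_cases h : p.1 + r.2 = r.1 + p.2 ∧ Cl s p.1 p.2
  · rw [if_pos h]
    rw [mem_product] at hp
    have hm : (s p.1, s p.2) ∈ prs F s := by
      unfold prs
      rw [mem_filter, mem_product]
      exact ⟨⟨mem_image_of_mem _ hp.1, mem_image_of_mem _ hp.2⟩, h.2⟩
    refine le_trans (le_of_eq ?_) (Finset.single_le_sum hn hm)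
    rw [if_pos h.1]
    unfold wK
    rw [if_pos rfl, if_pos rfl]
  · rw [if_neg h]
    exact Finset.sum_nonneg hn

lemma sum_prs (F : Finset ℕ) (s : ℕ → ℕ) (N : ℕ → ℝ) (hN : ∀ K, 0 ≤ N K) :
    ∑ K ∈ prs F s, (N K.1 + N K.2) ≤ 10 * ∑ K ∈ F.image s, N K := by
  have h5 : ∀ K : ℕ, ((F.image s).filter (fun L => K ≤ L + 2 ∧ L ≤ K + 2)).card ≤ 5 := by
    intro K
    have hsub : (F.image s).filter (fun L => K ≤ L + 2 ∧ L ≤ K + 2) ⊆ Finset.Icc (K - 2) (K + 2) := by
      intro L hL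
      rw [mem_filter] at hL
      rw [mem_Icc]
      omega
    refine (Finset.card_le_card hsub).trans ?_
    rw [Nat.card_Icc]
    omega
  have k1 : ∑ K ∈ prs F s, N K.1 ≤ 5 * ∑ K ∈ F.image s, N K := by
    unfold prs
    rw [Finset.sum_filter, Finset.sum_product, Finset.mul_sum]
    refine Finset.sum_le_sum fun K _ => ?_
    rw [← Finset.sum_filter]
    dsimp only
    rw [Finset.sum_const, nsmul_eq_mul]
    apply mul_le_mul_of_nonneg_right _ (hN K)
    exact_mod_cast h5 K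
  have k2 : ∑ K ∈ prs F s, N K.2 ≤ 5 * ∑ K ∈ F.image s, N K := by
    unfold prs
    rw [Finset.sum_filter, Finset.sum_product, Finset.sum_comm, Finset.mul_sum]
    refine Finset.sum_le_sum fun K _ => ?_
    rw [← Finset.sum_filter]
    dsimp only
    rw [Finset.sum_const, nsmul_eq_mul]
    apply mul_le_mul_of_nonneg_right _ (hN K)
    have : ((F.image s).filter (fun L => L ≤ K + 2 ∧ K ≤ L + 2)).card ≤ 5 := by
      refine (Finset.card_le_card ?_).trans (h5 K)
      intro L hL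
      rw [mem_filter] at hL ⊢
      exact ⟨hL.1, hL.2.2, hL.2.1⟩
    exact_mod_cast this
  rw [Finset.sum_add_distrib]
  linarith

/-- Littlewood-Paley for positive coefficients: if elements of different scales interact only
with close scales and every scale has at most `g` representations, the energy is bounded. -/
theorem lp (F : Finset ℕ) (s : ℕ → ℕ) (g : ℕ) (w : ℕ → ℝ) (hw : ∀ a, 0 ≤ w a)
    (h1 : ∀ a ∈ F, ∀ b ∈ F, ∀ c ∈ F, ∀ d ∈ F, a + b = c + d → s b ≤ max (s c) (s d) + 2)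
    (h2 : ∀ K n, ((F ×ˢ F).filter (fun p => s p.1 = K ∧ s p.2 = K ∧ p.1 + p.2 = n)).card ≤ g) :
    En F w ≤ 400 * g * (∑ a ∈ F, w a ^ 2) ^ 2 := by
  set N : ℕ → ℝ := fun K => ∑ a ∈ F, wK s w K a ^ 2 with hN
  have hN0 : ∀ K, 0 ≤ N K := fun K => Finset.sum_nonneg fun a _ => sq_nonneg _
  have hE0 : ∀ v : ℕ → ℝ, 0 ≤ En F v := fun v => G_self_nonneg F v v
  set γ : ℝ := √(g : ℝ) with hγ
  have hγ0 : 0 ≤ γ := Real.sqrt_nonneg _
  have hγ2 : γ ^ 2 = g := Real.sq_sqrt (Nat.cast_nonneg g)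
  set e : ℕ → ℝ := fun K => √(En F (wK s w K)) with he
  have he0 : ∀ K, 0 ≤ e K := fun K => Real.sqrt_nonneg _
  have he2 : ∀ K, e K ^ 2 = En F (wK s w K) := fun K => Real.sq_sqrt (hE0 _)
  have hblock : ∀ K, En F (wK s w K) ≤ g * N K ^ 2 := by
    intro K
    apply block_energy
    intro n
    refine (Finset.card_le_card ?_).trans (h2 K n)
    intro p hp
    rw [mem_filter] at hp ⊢
    refine ⟨hp.1, ?_, ?_, hp.2.2.2⟩
    · by_contra hc
      exact hp.2.1 (by unfold wK; rw [if_neg hc])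
    · by_contra hc
      exact hp.2.2.1 (by unfold wK; rw [if_neg hc])
  have heN : ∀ K, e K ≤ γ * N K := by
    intro K
    apply le_of_sq_le_sq _ (mul_nonneg hγ0 (hN0 K))
    rw [he2, mul_pow, hγ2]
    exact hblock K
  set S : ℝ := √(En F w) with hS
  have hS0 : 0 ≤ S := Real.sqrt_nonneg _
  have hS2 : S ^ 2 = En F w := Real.sq_sqrt (hE0 w)
  have hG : ∀ K : ℕ × ℕ, G F (wK s w K.1) (wK s w K.2) w w ≤ S * γ / 2 * (N K.1 + N K.2) := by
    intro K
    have a1 := G_cs F (wK s w K.1) (wK s w K.2) w w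
    have a2 := G_four F (wK s w K.1) (wK s w K.2)
    have a3 := G_self_nonneg F (wK s w K.1) (wK s w K.2)
    have a4 : G F (wK s w K.1) (wK s w K.2) (wK s w K.1) (wK s w K.2) ≤ e K.1 * e K.2 := by
      apply le_of_sq_le_sq _ (mul_nonneg (he0 _) (he0 _))
      rw [mul_pow, he2, he2]
      exact a2
    have a5 : e K.1 * e K.2 ≤ ((e K.1 + e K.2) / 2) ^ 2 := by
      nlinarith [sq_nonneg (e K.1 - e K.2)]
    have a6 : G F (wK s w K.1) (wK s w K.2) w w ≤ (e K.1 + e K.2) / 2 * S := by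
      apply le_of_sq_le_sq _ (mul_nonneg (by linarith [he0 K.1, he0 K.2]) hS0)
      rw [mul_pow, hS2]
      refine a1.trans ?_
      exact mul_le_mul_of_nonneg_right (a4.trans a5) (hE0 w)
    refine a6.trans ?_
    have b1 := heN K.1
    have b2 := heN K.2
    have b3 : (e K.1 + e K.2) * S ≤ (γ * N K.1 + γ * N K.2) * S :=
      mul_le_mul_of_nonneg_right (by linarith) hS0
    nlinarith
  have hNsum : ∑ K ∈ F.image s, N K = ∑ a ∈ F, w a ^ 2 := by
    rw [hN, Finset.sum_comm]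
    refine Finset.sum_congr rfl fun a ha => ?_
    rw [Finset.sum_eq_single (s a)]
    · unfold wK
      rw [if_pos rfl]
    · intro K _ hK
      unfold wK
      rw [if_neg (fun h => hK h.symm)]
      norm_num
    · intro h
      exact absurd (mem_image_of_mem _ ha) h
  have hfin : En F w ≤ 20 * γ * (∑ a ∈ F, w a ^ 2) * S := by
    have b1 := step_A F s w hw h1
    have b2 := step_B F s w hw
    have b3 : ∑ K ∈ prs F s, G F (wK s w K.1) (wK s w K.2) w w ≤
        S * γ / 2 * (10 * ∑ a ∈ F, w a ^ 2) := by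
      refine (Finset.sum_le_sum fun K _ => hG K).trans ?_
      rw [← Finset.mul_sum]
      apply mul_le_mul_of_nonneg_left _ (by positivity)
      rw [← hNsum]
      exact sum_prs F s N hN0
    linarith
  have hX0 : 0 ≤ ∑ a ∈ F, w a ^ 2 := Finset.sum_nonneg fun a _ => sq_nonneg _
  set X := ∑ a ∈ F, w a ^ 2 with hX
  have hSX : S ≤ 20 * γ * X := by
    rw [← hS2] at hfin
    rcases eq_or_lt_of_le hS0 with h0 | h0
    · rw [← h0]
      positivity
    · nlinarith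
  calc En F w = S ^ 2 := hS2.symm
    _ ≤ (20 * γ * X) ^ 2 := pow_le_pow_left₀ hS0 hSX 2
    _ = 400 * γ ^ 2 * X ^ 2 := by ring
    _ = 400 * g * X ^ 2 := by rw [hγ2]

end Pool.Agent.Helper44.LB
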