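import Pool.Agent.Helper52.Thin.Final
import Pool.Agent.Helper44.LB.LP2
import Pool.Agent.Helper44.LB.Blocks

set_option autoImplicit false
set_option linter.unusedSectionVars false

namespace Pool.Agent.Helper44.LB

open Finset Filter Pool.Agent.Helper3.Thin Pool.Agent.Helper52.Thin

theorem exists_pre2 : ∃ A : Set ℕ, ∃ N0 : ℕ, (∀ n, N0 ≤ n → ∃ a ∈ A, ∃ b ∈ A, a + b = n) ∧
    (∀ n : ℕ, (Rp A n).ncard ≤ 3 * (4096 * (4096 * (1296 + 58 * facBd n)))) ∧
    (∀ (N t : ℕ) (y : ℝ), 0 ≤ y → (N : ℝ) ≤ y ^ 16 → ∀ B : Finset ℕ,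
      (∀ n ∈ B, n < N ∧ 3 * (4096 * (4096 * (1296 + 2 * t))) < (Rp A n).ncard) →
      (B.card : ℝ) ≤ 4096 * 4096 * (2000 * (N : ℝ) * (243 ^ (t + 1) / ((t + 1).factorial : ℝ)) +
      6 * y ^ 15)) ∧
    ∀ F : Finset ℕ, (∀ a ∈ F, a ∈ A ∨ a ≤ N0) →
      ∃ s : ℕ → ℕ, (∀ a ∈ F, ∀ b ∈ F, ∀ c ∈ F, ∀ d ∈ F, a + b = c + d →
        s b ≤ max (s c) (s d) + 2) ∧
      ∀ k n, ((F ×ˢ F).filter (fun p => s p.1 = k ∧ s p.2 = k ∧ p.1 + p.2 = n)).card ≤
        4096 * (4096 * 1296) + 2 * (N0 + 1) := by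
  classical
  obtain ⟨Q0, hQ0⟩ := eventually_atTop.1 facBd_small
  obtain ⟨q, hprime, hbig0, hg1, hg2⟩ := exists_scales' (max Q0 (10 ^ 52))
  have hbig : 10 ^ 52 ≤ q 0 := (le_max_right _ _).trans hbig0
  have hqp : ∀ k, Fact (q k).Prime := fun k => ⟨hprime k⟩
  have hmono : Monotone q := monotone_nat_of_le_succ (fun k => by
    have := hg1 k
    omega)
  have hsmall : ∀ k, (facBd (q k) : ℝ) + 1 ≤ rt q k := by
    intro k
    apply hQ0
    exact (le_max_left _ _).trans (hbig0.trans (hmono (Nat.zero_le k)))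
  have hlarge : ∀ k, 16 < q k := by
    intro k
    have h1 := hmono (Nat.zero_le k)
    have h2 : 16 < 10 ^ 52 := by norm_num
    omega
  choose Γ hΓ using fun k => exists_goodSet (q k) (hlarge k)
  have hA : Adm q Γ := ⟨hΓ, hg1, by
    have h2 : 36 ≤ 10 ^ 52 := by norm_num
    omega⟩
  have hex := fun K => exists_tau' hA hbig (fun k => facBd (q k)) (fun k => facBd_spec (q k))
    hsmall K
  choose τ hτ hτ2 hτ3 using hex
  set U : Ultrafilter ℕ := hyperfilter ℕ with hU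
  refine ⟨{a | ∀ᶠ K in (U : Filter ℕ), a ∈ Ak Γ (τ K)}, 4 * q 0 ^ 4, ?_, ?_, ?_, ?_⟩
  · intro n hn
    have h1 : ∀ᶠ K in (U : Filter ℕ), ∃ p ∈ ((HasAntidiagonal.antidiagonal n : Finset (ℕ × ℕ)) : Set (ℕ × ℕ)),
        p.1 ∈ Ak Γ (τ K) ∧ p.2 ∈ Ak Γ (τ K) := by
      have h2 : ∀ᶠ K in (atTop : Filter ℕ), n < K := eventually_gt_atTop n
      have h3 : ∀ᶠ K in (U : Filter ℕ), n < K := Nat.hyperfilter_le_atTop h2
      filter_upwards [h3] with K hK
      obtain ⟨x, hx, y, hy, hxy⟩ := cover_all hA hg2 (τ K) n hn hK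
      exact ⟨(x, y), by rw [Finset.mem_coe, HasAntidiagonal.mem_antidiagonal]; exact hxy, hx, hy⟩
    rw [Ultrafilter.eventually_exists_mem_iff (Finset.finite_toSet _)] at h1
    obtain ⟨p, hp, h2⟩ := h1
    rw [Finset.mem_coe, HasAntidiagonal.mem_antidiagonal] at hp
    exact ⟨p.1, h2.mono (fun K hK => hK.1), p.2, h2.mono (fun K hK => hK.2), hp⟩
  · intro n
    set A : Set ℕ := {a | ∀ᶠ K in (U : Filter ℕ), a ∈ Ak Γ (τ K)} with hAdef
    have hfin := Rp_finite A n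
    set S := hfin.toFinset with hS
    have hcard : (Rp A n).ncard = S.card := Set.ncard_eq_toFinset_card _ hfin
    rw [hcard]
    have hall : ∀ᶠ K in (U : Filter ℕ), ∀ p ∈ S, p.1 ∈ Ak Γ (τ K) ∧ p.2 ∈ Ak Γ (τ K) := by
      rw [Filter.eventually_all_finset]
      intro p hp
      rw [hS, Set.Finite.mem_toFinset] at hp
      exact hp.1.and hp.2.1
    obtain ⟨K, hK⟩ := hall.exists
    apply rep_bound hA (τ K) (fun k => facBd (q k)) (hτ K) n (facBd n)
    · intro k hk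
      exact facBd_mono hk
    · intro p hp
      refine ⟨(hK p hp).1, (hK p hp).2, ?_⟩
      rw [hS, Set.Finite.mem_toFinset] at hp
      exact hp.2.2
  · intro N t y hy hyN B hB
    set A : Set ℕ := {a | ∀ᶠ K in (U : Filter ℕ), a ∈ Ak Γ (τ K)} with hAdef
    have hall : ∀ᶠ K in (U : Filter ℕ), ∀ a ∈ range N, a ∈ A → a ∈ Ak Γ (τ K) := by
      rw [Filter.eventually_all_finset]
      intro a _
      by_cases ha : a ∈ A
      · have ha' : ∀ᶠ K in (U : Filter ℕ), a ∈ Ak Γ (τ K) := ha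
        exact ha'.mono (fun K hK _ => hK)
      · exact Eventually.of_forall (fun K h => absurd h ha)
    obtain ⟨K, hK⟩ := hall.exists
    apply count_bound hA (τ K) (hτ2 K) (hτ3 K) N t (fun n => (Rp_finite A n).toFinset) _ B _ y hy
      hyN
    · intro n hn p hp
      rw [Set.Finite.mem_toFinset] at hp
      obtain ⟨h1, h2, h3⟩ := hp
      exact ⟨hK _ (by rw [mem_range]; omega) h1, hK _ (by rw [mem_range]; omega) h2, h3⟩
    · intro n hn
      obtain ⟨h1, h2⟩ := hB n hn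
      refine ⟨h1, ?_⟩
      rw [← Set.ncard_eq_toFinset_card _ (Rp_finite A n)]
      exact h2
  · intro F hF
    set A : Set ℕ := {a | ∀ᶠ K in (U : Filter ℕ), a ∈ Ak Γ (τ K)} with hAdef
    have hall : ∀ᶠ K in (U : Filter ℕ), ∀ a ∈ F, a ∈ A → a ∈ Ak Γ (τ K) := by
      rw [Filter.eventually_all_finset]
      intro a _
      by_cases ha : a ∈ A
      · have ha' : ∀ᶠ K in (U : Filter ℕ), a ∈ Ak Γ (τ K) := ha
        exact ha'.mono (fun K hK _ => hK)
      · exact Eventually.of_forall (fun K h => absurd h ha)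
    obtain ⟨K, hK⟩ := hall.exists
    apply scales hA (τ K) F
    intro a ha
    rcases hF a ha with h | h
    · exact Or.inl (hK a ha h)
    · exact Or.inr h

/-- The basis, with its Poisson tails and the energy bound for all weights. -/
theorem basis : ∃ A : Set ℕ, (∀ n : ℕ, ∃ a ∈ A, ∃ b ∈ A, a + b = n) ∧
    (∃ C : ℝ, ∀ᶠ n : ℕ in atTop, (rp A n : ℝ) ≤ C * (Real.log n / Real.log (Real.log n))) ∧
    (∃ c C : ℝ, 0 < c ∧ ∀ N u : ℕ, 1 ≤ u →
      (((range N).filter (fun n => u ≤ rp A n)).card : ℝ) ≤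
        C * N * Real.exp (-(c * u * Real.log u))) ∧
    (∀ lam : ℝ, ∃ C : ℝ, ∀ N : ℕ, ∑ n ∈ range N, Real.exp (lam * rp A n) ≤ C * N) ∧
    ∃ C : ℝ, 0 ≤ C ∧ ∀ (F : Finset ℕ) (w : ℕ → ℝ), (∀ a ∈ F, a ∈ A) → (∀ a, 0 ≤ w a) →
      En F w ≤ C * (∑ a ∈ F, w a ^ 2) ^ 2 := by
  classical
  obtain ⟨A, N0, hcov, hrep, hcnt, hsc⟩ := exists_pre2
  set A' : Set ℕ := A ∪ {x | x ≤ N0} with hA'
  set α : ℕ := 3 * (4096 * (4096 * 1296)) + 2 * (N0 + 1) with hα
  set β : ℕ := 3 * (4096 * (4096 * 2)) with hβ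
  have hle : ∀ n, rp A' n ≤ rp A n + 2 * (N0 + 1) := fun n => rp_union A N0 n
  have hb1 : ∀ n, rp A' n ≤ α + β * (29 * facBd n) := by
    intro n
    have h1 := hrep n
    have h2 := hle n
    unfold rp at h2 ⊢
    rw [hα, hβ]
    omega
  have htail := tail_of (rp A') α β (by omega) (by omega) (4096 * 4096) (by norm_num) hb1 (by
    intro N t y hy hyN
    apply hcnt N t y hy hyN
    intro n hn
    rw [mem_filter, mem_range] at hn
    refine ⟨hn.1, ?_⟩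
    have h2 := hle n
    have h3 := hn.2
    unfold rp at h2 h3
    rw [hα, hβ] at h3
    omega)
  refine ⟨A', ?_, ?_, htail, ?_, ?_⟩
  · intro n
    rcases le_or_gt N0 n with h | h
    · obtain ⟨a, ha, b, hb, hab⟩ := hcov n h
      exact ⟨a, Or.inl ha, b, Or.inl hb, hab⟩
    · exact ⟨n, Or.inr h.le, 0, Or.inr (Nat.zero_le _), by simp⟩
  · refine ⟨(α : ℝ) + β * (29 * 17), ?_⟩
    filter_upwards [facBd_bound] with n hn
    obtain ⟨h1, h2⟩ := hn
    set R := Real.log (n : ℝ) / Real.log (Real.log (n : ℝ)) with hR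
    have h3 : (rp A' n : ℝ) ≤ (α : ℝ) + β * (29 * (facBd n : ℝ)) := by exact_mod_cast hb1 n
    refine h3.trans ?_
    have hα0 : (0 : ℝ) ≤ α := Nat.cast_nonneg _
    have hβ0 : (0 : ℝ) ≤ β := Nat.cast_nonneg _
    have h4 : (α : ℝ) ≤ α * R := by nlinarith
    have h5 : (β : ℝ) * (29 * (facBd n : ℝ)) ≤ β * (29 * (17 * R)) := by gcongr
    calc (α : ℝ) + β * (29 * (facBd n : ℝ)) ≤ α * R + β * (29 * (17 * R)) := add_le_add h4 h5
      _ = _ := by ring
  · obtain ⟨c, C, hc, h⟩ := htail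
    exact moments_of (rp A') c C hc h
  · refine ⟨400 * ((4096 * (4096 * 1296) + 2 * (N0 + 1) : ℕ) : ℝ), by positivity, ?_⟩
    intro F w hF hw
    obtain ⟨s, hs1, hs2⟩ := hsc F (fun a ha => hF a ha)
    exact lp F s _ w hw hs1 hs2

end Pool.Agent.Helper44.LB
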