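import Mathlib

set_option autoImplicit false

/-!
# Orlicz functions: the fourth power is the last one for a basis
-/

namespace Pool.Agent.Helper44.LB

open Finset Filter MeasureTheory

/-- The exponential sum with frequencies in `F` and coefficients `w`. -/
noncomputable def ex (F : Finset ℕ) (w : ℕ → ℂ) (t : ℝ) : ℂ :=
  ∑ a ∈ F, w a * Complex.exp (2 * Real.pi * Complex.I * a * t)

lemma ex_cont (F : Finset ℕ) (w : ℕ → ℂ) : Continuous (ex F w) := by
  unfold ex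
  fun_prop

lemma ex_norm_exp (a : ℕ) (t : ℝ) :
    ‖Complex.exp (2 * Real.pi * Complex.I * a * t)‖ = 1 := by
  have h : (2 * Real.pi * Complex.I * a * t : ℂ) = ((2 * Real.pi * a * t : ℝ) : ℂ) * Complex.I := by
    push_cast
    ring
  rw [h, Complex.norm_exp_ofReal_mul_I]

lemma ex_le (F : Finset ℕ) (w : ℕ → ℂ) (t : ℝ) : ‖ex F w t‖ ≤ ∑ a ∈ F, ‖w a‖ := by
  unfold ex
  refine (norm_sum_le _ _).trans (le_of_eq ?_)
  refine Finset.sum_congr rfl fun a _ => ?_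
  rw [norm_mul, ex_norm_exp, mul_one]

lemma ex_re (a : ℕ) (t : ℝ) :
    (Complex.exp (2 * Real.pi * Complex.I * a * t)).re = Real.cos (2 * Real.pi * a * t) := by
  have h : (2 * Real.pi * Complex.I * a * t : ℂ) = ((2 * Real.pi * a * t : ℝ) : ℂ) * Complex.I := by
    push_cast
    ring
  rw [h, Complex.exp_ofReal_mul_I_re]

lemma ex_int (Φ : ℝ → ℝ) (hΦ : Monotone Φ) (h0 : ∀ u, 0 ≤ Φ u) (F : Finset ℕ) (w : ℕ → ℂ) (a b : ℝ) :
    IntervalIntegrable (fun t => Φ ‖ex F w t‖) volume a b := by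
  rw [intervalIntegrable_iff]
  apply Measure.integrableOn_of_bounded (M := Φ (∑ a ∈ F, ‖w a‖))
  · rw [Set.uIoc]
    exact measure_Ioc_lt_top.ne
  · exact (hΦ.measurable.comp (ex_cont F w).norm.measurable).aestronglyMeasurable
  · refine Eventually.of_forall fun t => ?_
    rw [Real.norm_eq_abs, abs_of_nonneg (h0 _)]
    exact hΦ (ex_le F w t)

/-- A set with all sums up to `M ^ 2` has `M` elements below `M ^ 2`. -/
lemma many (A : Set ℕ) (hA : ∀ n : ℕ, ∃ a ∈ A, ∃ b ∈ A, a + b = n) (M : ℕ) :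
    ∃ B : Finset ℕ, (∀ a ∈ B, a ∈ A ∧ a < M ^ 2) ∧ B.card = M := by
  classical
  set B0 := (range (M ^ 2)).filter (fun a => a ∈ A) with hB0
  have h1 : range (M ^ 2) ⊆ (B0 ×ˢ B0).image (fun p => p.1 + p.2) := by
    intro n hn
    rw [mem_range] at hn
    obtain ⟨a, ha, b, hb, hab⟩ := hA n
    rw [mem_image]
    refine ⟨(a, b), ?_, hab⟩
    rw [mem_product, hB0, mem_filter, mem_filter, mem_range, mem_range]
    exact ⟨⟨by omega, ha⟩, by omega, hb⟩
  have h2 : M ^ 2 ≤ B0.card ^ 2 := by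
    have h3 := card_le_card h1
    rw [card_range] at h3
    refine h3.trans (card_image_le.trans ?_)
    rw [card_product, sq]
  have h3 : M ≤ B0.card := by
    by_contra h
    push Not at h
    exact absurd (Nat.pow_lt_pow_left h two_ne_zero) (by omega)
  obtain ⟨B, hB, hBc⟩ := Finset.exists_subset_card_eq h3
  refine ⟨B, fun a ha => ?_, hBc⟩
  have h4 := hB ha
  rw [hB0, mem_filter, mem_range] at h4
  exact ⟨h4.2, h4.1⟩

lemma ex_large (B : Finset ℕ) (M : ℕ) (hM : 0 < M) (hB : ∀ a ∈ B, a < M ^ 2) (hc : B.card = M)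
    (t : ℝ) (ht0 : 0 ≤ t) (ht : t ≤ 1 / (8 * (M : ℝ) ^ 2)) (u : ℝ) (hu : 2 * u ^ 2 ≤ M) :
    u ≤ ‖ex B (fun _ => ((1 / Real.sqrt M : ℝ) : ℂ)) t‖ := by
  have hMr : (0 : ℝ) < M := by exact_mod_cast hM
  have hs : 0 < Real.sqrt M := Real.sqrt_pos.2 hMr
  have hre : (ex B (fun _ => ((1 / Real.sqrt M : ℝ) : ℂ)) t).re =
      ∑ a ∈ B, (1 / Real.sqrt M) * Real.cos (2 * Real.pi * a * t) := by
    unfold ex
    rw [Complex.re_sum]
    refine Finset.sum_congr rfl fun a _ => ?_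
    rw [Complex.re_ofReal_mul, ex_re]
  have hcos : ∀ a ∈ B, Real.sqrt 2 / 2 ≤ Real.cos (2 * Real.pi * a * t) := by
    intro a ha
    have h1 : (a : ℝ) ≤ (M : ℝ) ^ 2 := by exact_mod_cast (hB a ha).le
    have h2 : (a : ℝ) * t ≤ 1 / 8 := by
      calc (a : ℝ) * t ≤ (M : ℝ) ^ 2 * (1 / (8 * (M : ℝ) ^ 2)) :=
            mul_le_mul h1 ht ht0 (by positivity)
        _ = 1 / 8 := by field_simp
    have h3 : 2 * Real.pi * a * t ≤ Real.pi / 4 := by
      have h4 : 2 * Real.pi * a * t = 2 * Real.pi * (a * t) := by ring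
      rw [h4]
      nlinarith [Real.pi_pos]
    have h5 : 0 ≤ 2 * Real.pi * a * t := by positivity
    rw [← Real.cos_pi_div_four]
    exact Real.cos_le_cos_of_nonneg_of_le_pi h5 (by linarith [Real.pi_pos]) h3
  have hsum : Real.sqrt M * (Real.sqrt 2 / 2) ≤ (ex B (fun _ => ((1 / Real.sqrt M : ℝ) : ℂ)) t).re := by
    rw [hre]
    calc Real.sqrt M * (Real.sqrt 2 / 2) = ∑ a ∈ B, (1 / Real.sqrt M) * (Real.sqrt 2 / 2) := by
          rw [Finset.sum_const, nsmul_eq_mul, hc]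
          have h6 : (M : ℝ) = Real.sqrt M * Real.sqrt M := (Real.mul_self_sqrt hMr.le).symm
          have h7 : (M : ℝ) * (1 / Real.sqrt M * (Real.sqrt 2 / 2)) =
            (Real.sqrt M * Real.sqrt M) * (1 / Real.sqrt M * (Real.sqrt 2 / 2)) := by rw [← h6]
          rw [h7]
          field_simp
      _ ≤ _ := Finset.sum_le_sum fun a ha =>
          mul_le_mul_of_nonneg_left (hcos a ha) (by positivity)
  have hu2 : u ≤ Real.sqrt M * (Real.sqrt 2 / 2) := by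
    have h8 : Real.sqrt M * (Real.sqrt 2 / 2) = Real.sqrt (M / 2) := by
      rw [Real.sqrt_div hMr.le]
      have h9 : Real.sqrt 2 * Real.sqrt 2 = 2 := Real.mul_self_sqrt (by norm_num)
      have h10 : 0 < Real.sqrt 2 := Real.sqrt_pos.2 (by norm_num)
      field_simp
      nlinarith
    rw [h8]
    apply Real.le_sqrt_of_sq_le
    linarith
  exact hu2.trans (hsum.trans (Complex.re_le_norm _))

/-- No basis has a bound for the integrals of `Φ` unless `Φ` is at most a fourth power. -/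
theorem orl_sharp (Φ : ℝ → ℝ) (hΦ : Monotone Φ) (h0 : ∀ u, 0 ≤ Φ u) (A : Set ℕ)
    (hA : ∀ n : ℕ, ∃ a ∈ A, ∃ b ∈ A, a + b = n) (C : ℝ)
    (hC : ∀ (F : Finset ℕ) (w : ℕ → ℂ), (∀ a ∈ F, a ∈ A) → ∑ a ∈ F, ‖w a‖ ^ 2 = 1 →
      ∫ t in (0 : ℝ)..1, Φ ‖ex F w t‖ ≤ C) :
    ∃ C' : ℝ, ∀ u : ℝ, 1 ≤ u → Φ u ≤ C' * u ^ 4 := by
  refine ⟨72 * C, fun u hu => ?_⟩
  set M : ℕ := ⌈2 * u ^ 2⌉₊ with hM
  have hM1 : 2 * u ^ 2 ≤ (M : ℝ) := Nat.le_ceil _
  have hM2 : (M : ℝ) < 2 * u ^ 2 + 1 := Nat.ceil_lt_add_one (by positivity)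
  have hM0 : 0 < M := by
    have : (0 : ℝ) < M := by nlinarith
    exact_mod_cast this
  have hMr : (0 : ℝ) < M := by exact_mod_cast hM0
  obtain ⟨B, hB, hBc⟩ := many A hA M
  have hs : 0 < Real.sqrt M := Real.sqrt_pos.2 hMr
  have hw : ∑ a ∈ B, ‖(((1 / Real.sqrt M : ℝ) : ℂ))‖ ^ 2 = 1 := by
    rw [Finset.sum_const, nsmul_eq_mul, hBc, Complex.norm_real, Real.norm_eq_abs,
      abs_of_pos (by positivity), div_pow, one_pow, Real.sq_sqrt hMr.le]
    field_simp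
  have h1 := hC B (fun _ => ((1 / Real.sqrt M : ℝ) : ℂ)) (fun a ha => (hB a ha).1) hw
  set δ : ℝ := 1 / (8 * (M : ℝ) ^ 2) with hδ
  have hδ0 : 0 < δ := by positivity
  have hδ1 : δ ≤ 1 := by
    rw [hδ, div_le_one (by positivity)]
    have : (1 : ℝ) ≤ M := by exact_mod_cast hM0
    nlinarith
  have h2 : ∫ t in (0 : ℝ)..δ, Φ ‖ex B (fun _ => ((1 / Real.sqrt M : ℝ) : ℂ)) t‖ ≤
      ∫ t in (0 : ℝ)..1, Φ ‖ex B (fun _ => ((1 / Real.sqrt M : ℝ) : ℂ)) t‖ := by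
    apply intervalIntegral.integral_mono_interval le_rfl hδ0.le hδ1
    · exact Eventually.of_forall fun t => h0 _
    · exact ex_int Φ hΦ h0 _ _ _ _
  have h3 : Φ u * δ ≤ ∫ t in (0 : ℝ)..δ, Φ ‖ex B (fun _ => ((1 / Real.sqrt M : ℝ) : ℂ)) t‖ := by
    have h4 : ∫ t in (0 : ℝ)..δ, Φ u = Φ u * δ := by
      rw [intervalIntegral.integral_const, smul_eq_mul, sub_zero, mul_comm]
    rw [← h4]
    apply intervalIntegral.integral_mono_on hδ0.le
    · exact intervalIntegrable_const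
    · exact ex_int Φ hΦ h0 _ _ _ _
    · intro t ht
      apply hΦ
      exact ex_large B M hM0 (fun a ha => (hB a ha).2) hBc t ht.1 ht.2 u hM1
  have h5 : Φ u * δ ≤ C := h3.trans (h2.trans h1)
  have h6 : Φ u ≤ C * (8 * (M : ℝ) ^ 2) := by
    rw [hδ, mul_one_div, div_le_iff₀ (by positivity)] at h5
    exact h5
  have hC0 : 0 ≤ C := by
    have := mul_nonneg (h0 u) hδ0.le
    linarith
  have h7 : (M : ℝ) ≤ 3 * u ^ 2 := by nlinarith
  have h8 : (M : ℝ) ^ 2 ≤ 9 * u ^ 4 := by nlinarith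
  calc Φ u ≤ C * (8 * (M : ℝ) ^ 2) := h6
    _ ≤ C * (8 * (9 * u ^ 4)) := by gcongr
    _ = 72 * C * u ^ 4 := by ring

/-- The fourth power bound gives the bound for `Φ`. -/
theorem orl_of_four (Φ : ℝ → ℝ) (hΦ : Monotone Φ) (h0 : ∀ u, 0 ≤ Φ u) (K : ℝ)
    (hK : ∀ u : ℝ, 1 ≤ u → Φ u ≤ K * u ^ 4) (C : ℝ) (F : Finset ℕ) (w : ℕ → ℂ)
    (hC : ∫ t in (0 : ℝ)..1, ‖ex F w t‖ ^ 4 ≤ C) :
    ∫ t in (0 : ℝ)..1, Φ ‖ex F w t‖ ≤ K * (1 + C) := by
  have hK0 : 0 ≤ K := by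
    have := hK 1 le_rfl
    have := h0 1
    linarith
  have h1 : ∀ u : ℝ, 0 ≤ u → Φ u ≤ K * (1 + u ^ 4) := by
    intro u hu
    rcases le_total 1 u with h | h
    · have := hK u h
      nlinarith
    · have h2 := hΦ h
      have h3 := hK 1 le_rfl
      have h4 : 0 ≤ K * u ^ 4 := by positivity
      linarith
  have hint : IntervalIntegrable (fun t => ‖ex F w t‖ ^ 4) volume 0 1 :=
    ((ex_cont F w).norm.pow 4).intervalIntegrable _ _
  calc ∫ t in (0 : ℝ)..1, Φ ‖ex F w t‖ ≤ ∫ t in (0 : ℝ)..1, K * (1 + ‖ex F w t‖ ^ 4) := by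
        apply intervalIntegral.integral_mono_on zero_le_one
        · exact ex_int Φ hΦ h0 _ _ _ _
        · exact (intervalIntegrable_const.add hint).const_mul K
        · intro t _
          exact h1 _ (norm_nonneg _)
    _ = K * (1 + ∫ t in (0 : ℝ)..1, ‖ex F w t‖ ^ 4) := by
        rw [intervalIntegral.integral_const_mul,
          intervalIntegral.integral_add intervalIntegrable_const hint,
          intervalIntegral.integral_const]
        simp
    _ ≤ K * (1 + C) := by gcongr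

end Pool.Agent.Helper44.LB
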