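import Pool.Agent.Helper44.LB.Gow
import Pool.Agent.Helper44.LB.Orl

set_option autoImplicit false

namespace Pool.Agent.Helper44.LB.Cand6

open Finset Filter

/-- `A` is a basis of order two. -/
def Basis (A : Set ℕ) : Prop := ∀ n : ℕ, ∃ a ∈ A, ∃ b ∈ A, a + b = n

/-- The exponential sum with frequencies in `F` and coefficients `w`. -/
noncomputable def expSum (F : Finset ℕ) (w : ℕ → ℂ) (t : ℝ) : ℂ :=
  ∑ a ∈ F, w a * Complex.exp (2 * Real.pi * Complex.I * a * t)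

/-- The integrals of `G ‖expSum F w t‖` over the period are at most `C`, for all finite subsets `F` of
`A` and all coefficients `w` with sum of squares one. -/
def MeanLe (G : ℝ → ℝ) (A : Set ℕ) (C : ℝ) : Prop :=
  ∀ (F : Finset ℕ) (w : ℕ → ℂ), (∀ a ∈ F, a ∈ A) → ∑ a ∈ F, ‖w a‖ ^ 2 = 1 →
    ∫ t in (0 : ℝ)..1, G ‖expSum F w t‖ ≤ C

/-- `rep A n` is the number of ordered pairs `(a, b)` in `A × A` with `a + b = n`. -/
noncomputable def rep (A : Set ℕ) (n : ℕ) : ℕ :=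
  ({p : ℕ × ℕ | p.1 ∈ A ∧ p.2 ∈ A ∧ p.1 + p.2 = n} : Set (ℕ × ℕ)).ncard

/-- `repF B n` is the number of ordered pairs of elements of the finite set `B` with sum `n`. -/
def repF (B : Finset ℕ) (n : ℕ) : ℕ := ((B ×ˢ B).filter (fun p => p.1 + p.2 = n)).card

/-- The finite set `B + B`. -/
def sums (B : Finset ℕ) : Finset ℕ := (B ×ˢ B).image (fun p => p.1 + p.2)

/-- The sums of `r_B(n) ^ 2 * φ (r_B(n))` are `O(|B| ^ 2)` for all finite subsets `B` of `A`. -/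
def Hered (φ : ℕ → ℝ) (A : Set ℕ) : Prop :=
  ∃ C : ℝ, ∀ B : Finset ℕ, (∀ a ∈ B, a ∈ A) →
    ∑ n ∈ sums B, (repF B n : ℝ) ^ 2 * φ (repF B n) ≤ C * (B.card : ℝ) ^ 2

/-- (1) A basis of order two can be a `Λ(G)` set, for a nondecreasing `G ≥ 0`, exactly when
`G u = O(u ^ 4)`. (2) There is a basis `A` which is a `Λ(4)` set, with
`rep A n = O(log n / log log n)` and Poisson tails. (3) This `A` has the hereditary property
`Hered φ A` for `φ = 1`; for every `φ → ∞` and every set `A` the property says that the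
representation function of `A` is bounded. -/
theorem result :
    (∀ G : ℝ → ℝ, Monotone G → (∀ u, 0 ≤ G u) →
      ((∃ A : Set ℕ, Basis A ∧ ∃ C : ℝ, MeanLe G A C) ↔
        ∃ C : ℝ, ∀ u : ℝ, 1 ≤ u → G u ≤ C * u ^ 4)) ∧
    (∃ A : Set ℕ, Basis A ∧ (∃ C : ℝ, MeanLe (fun u => u ^ 4) A C) ∧
      (∃ C : ℝ, ∀ᶠ n : ℕ in atTop, (rep A n : ℝ) ≤ C * (Real.log n / Real.log (Real.log n))) ∧
      (∃ c C : ℝ, 0 < c ∧ ∀ N u : ℕ, 1 ≤ u →
        (((Finset.range N).filter (fun n => u ≤ rep A n)).card : ℝ)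
          ≤ C * N * Real.exp (-(c * u * Real.log u))) ∧
      Hered (fun _ => 1) A) ∧
    ∀ φ : ℕ → ℝ, (∀ t, 0 ≤ φ t) → Tendsto φ atTop atTop → ∀ A : Set ℕ,
      Hered φ A ↔ ∃ g : ℕ, ∀ n : ℕ, rep A n ≤ g := by
  obtain ⟨A, h1, h2, h3, h4, C, hC0, hC⟩ := Pool.Agent.Helper44.LB.basis
  have hL : MeanLe (fun u => u ^ 4) A C := by
    intro F w hF hw
    refine (Pool.Agent.Helper60.LB.four F w).trans ((hC F (fun a => ‖w a‖) hF
      (fun a => norm_nonneg _)).trans (le_of_eq ?_))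
    rw [hw]
    ring
  refine ⟨?_, ⟨A, h1, ⟨C, hL⟩, h2, h3, C, fun B hB => ?_⟩,
    fun φ h0 h1 A => (Pool.Agent.Helper44.LB.sharp' φ h0 h1 A).symm⟩
  · intro G hG hG0
    constructor
    · rintro ⟨A', hA', C', hC'⟩
      exact Pool.Agent.Helper44.LB.orl_sharp G hG hG0 A' hA' C' hC'
    · rintro ⟨K, hK⟩
      exact ⟨A, h1, K * (1 + C), fun F w hF hw =>
        Pool.Agent.Helper44.LB.orl_of_four G hG hG0 K hK C F w (hL F w hF hw)⟩
  · have h := hC B (fun _ => 1) hB (fun _ => zero_le_one)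
    rw [← Pool.Agent.Helper44.LB.sum_sq] at h
    simp only [mul_one]
    refine h.trans (le_of_eq ?_)
    congr 2
    simp

end Pool.Agent.Helper44.LB.Cand6
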