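import Pool.Agent.Helper44.LB.Rep

set_option autoImplicit false

namespace Pool.Agent.Helper44.LB

open Finset Filter

/-- A finite set with few sums has large energy. -/
lemma energy_ge (B : Finset ℕ) (C : ℝ)
    (hC : ∑ n ∈ sums B, (repF B n : ℝ) ^ 2 ≤ C * (B.card : ℝ) ^ 2) :
    (B.card : ℝ) ^ 4 ≤ (sums B).card * (C * (B.card : ℝ) ^ 2) := by
  have h1 := sq_sum_le_card_mul_sum_sq (s := sums B) (f := fun n => (repF B n : ℝ))
  have h2 : ∑ n ∈ sums B, (repF B n : ℝ) = (B.card : ℝ) ^ 2 := by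
    rw [← Nat.cast_sum, sum_repF]
    push_cast
    rfl
  rw [h2] at h1
  calc (B.card : ℝ) ^ 4 = ((B.card : ℝ) ^ 2) ^ 2 := by ring
    _ ≤ _ := h1
    _ ≤ _ := mul_le_mul_of_nonneg_left hC (Nat.cast_nonneg _)

/-- No proper cubes of large dimension. -/
theorem no_cube (A : Set ℕ) (C : ℝ)
    (hC : ∀ B : Finset ℕ, (∀ a ∈ B, a ∈ A) →
      ∑ n ∈ sums B, (repF B n : ℝ) ^ 2 ≤ C * (B.card : ℝ) ^ 2) :
    ∃ k : ℕ, ∀ (a : ℕ) (d : Fin k → ℕ),
      Function.Injective (fun S : Finset (Fin k) => a + ∑ i ∈ S, d i) →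
      ∃ S : Finset (Fin k), a + ∑ i ∈ S, d i ∉ A := by
  classical
  obtain ⟨k, hk⟩ : ∃ k : ℕ, C < (4 / 3 : ℝ) ^ k := by
    have := tendsto_pow_atTop_atTop_of_one_lt (show (1 : ℝ) < 4 / 3 by norm_num)
    exact (this.eventually_gt_atTop C).exists
  refine ⟨k, fun a d hinj => ?_⟩
  by_contra hcon
  push Not at hcon
  set f : Finset (Fin k) → ℕ := fun S => a + ∑ i ∈ S, d i with hf
  set B : Finset ℕ := (univ : Finset (Finset (Fin k))).image f with hB
  have hBA : ∀ x ∈ B, x ∈ A := by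
    intro x hx
    rw [hB, mem_image] at hx
    obtain ⟨S, _, rfl⟩ := hx
    exact hcon S
  have hcard : B.card = 2 ^ k := by
    rw [hB, card_image_of_injective _ hinj, card_univ, Fintype.card_finset, Fintype.card_fin]
  have hsums : (sums B).card ≤ 3 ^ k := by
    have hsub : sums B ⊆ (univ : Finset (Fin k → Fin 3)).image
        (fun c => 2 * a + ∑ i, (c i : ℕ) * d i) := by
      intro n hn
      unfold sums at hn
      rw [mem_image] at hn
      obtain ⟨p, hp, rfl⟩ := hn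
      rw [mem_product, hB, mem_image, mem_image] at hp
      obtain ⟨⟨S, _, h1⟩, ⟨T, _, h2⟩⟩ := hp
      rw [mem_image]
      refine ⟨fun i => ⟨(if i ∈ S then 1 else 0) + (if i ∈ T then 1 else 0), by
        split_ifs <;> norm_num⟩, mem_univ _, ?_⟩
      have e1 : ∀ S : Finset (Fin k), ∑ i ∈ S, d i = ∑ i, (if i ∈ S then 1 else 0) * d i := by
        intro S
        simp
      rw [← h1, ← h2, hf]
      simp only
      rw [e1 S, e1 T]
      have e2 : ∑ i, ((if i ∈ S then 1 else 0) + (if i ∈ T then 1 else 0)) * d i =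
          ∑ i, (if i ∈ S then 1 else 0) * d i + ∑ i, (if i ∈ T then 1 else 0) * d i := by
        rw [← sum_add_distrib]
        exact Finset.sum_congr rfl fun i _ => add_mul _ _ _
      rw [e2]
      ring
    refine (card_le_card hsub).trans (card_image_le.trans ?_)
    rw [card_univ, Fintype.card_fun, Fintype.card_fin, Fintype.card_fin]
  have h1 := energy_ge B C (hC B hBA)
  rw [hcard] at h1
  have hs : ((sums B).card : ℝ) ≤ (3 : ℝ) ^ k := by exact_mod_cast hsums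
  have hCpos : 0 ≤ C * (((2 ^ k : ℕ) : ℝ)) ^ 2 := by
    have h2 := hC B hBA
    rw [hcard] at h2
    exact (Finset.sum_nonneg fun n _ => sq_nonneg _).trans h2
  have h3 : (((2 ^ k : ℕ) : ℝ)) ^ 4 ≤ (3 : ℝ) ^ k * (C * (((2 ^ k : ℕ) : ℝ)) ^ 2) :=
    h1.trans (mul_le_mul_of_nonneg_right hs hCpos)
  push_cast at h3
  have e1 : ((2 : ℝ) ^ k) ^ 4 = (16 : ℝ) ^ k := by
    rw [← pow_mul, mul_comm, pow_mul]
    norm_num
  have e2 : ((2 : ℝ) ^ k) ^ 2 = (4 : ℝ) ^ k := by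
    rw [← pow_mul, mul_comm, pow_mul]
    norm_num
  rw [e1, e2] at h3
  have e3 : (16 : ℝ) ^ k = (4 / 3 : ℝ) ^ k * ((3 : ℝ) ^ k * (4 : ℝ) ^ k) := by
    rw [← mul_pow, ← mul_pow]
    norm_num
  rw [e3] at h3
  have hpos : (0 : ℝ) < (3 : ℝ) ^ k * (4 : ℝ) ^ k := by positivity
  nlinarith

/-- The endpoint, for every weight tending to infinity. -/
theorem sharp' (φ : ℕ → ℝ) (hφ0 : ∀ t, 0 ≤ φ t) (hφ : Tendsto φ atTop atTop) (A : Set ℕ) :
    (∃ g : ℕ, ∀ n : ℕ,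
      ({p : ℕ × ℕ | p.1 ∈ A ∧ p.2 ∈ A ∧ p.1 + p.2 = n} : Set (ℕ × ℕ)).ncard ≤ g) ↔
    ∃ C : ℝ, ∀ B : Finset ℕ, (∀ a ∈ B, a ∈ A) →
        ∑ n ∈ sums B, (repF B n : ℝ) ^ 2 * φ (repF B n) ≤ C * (B.card : ℝ) ^ 2 := by
  constructor
  · rintro ⟨g, hg⟩
    refine ⟨(g : ℝ) * ∑ t ∈ range (g + 1), φ t, ?_⟩
    intro B hB
    have hr : ∀ n, repF B n ≤ g := fun n => (repF_le_ncard A B hB n).trans (hg n)
    have hM : ∀ n, φ (repF B n) ≤ ∑ t ∈ range (g + 1), φ t := by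
      intro n
      exact Finset.single_le_sum (f := φ) (fun t _ => hφ0 t)
        (mem_range.2 (Nat.lt_succ_of_le (hr n)))
    have hM0 : 0 ≤ ∑ t ∈ range (g + 1), φ t := Finset.sum_nonneg fun t _ => hφ0 t
    calc ∑ n ∈ sums B, (repF B n : ℝ) ^ 2 * φ (repF B n)
        ≤ ∑ n ∈ sums B, ((g : ℝ) * ∑ t ∈ range (g + 1), φ t) * (repF B n : ℝ) := by
          refine Finset.sum_le_sum fun n _ => ?_
          have h1 : (repF B n : ℝ) ≤ g := by exact_mod_cast hr n
          have h0 : (0 : ℝ) ≤ repF B n := Nat.cast_nonneg _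
          calc (repF B n : ℝ) ^ 2 * φ (repF B n)
              ≤ (repF B n : ℝ) ^ 2 * ∑ t ∈ range (g + 1), φ t :=
                mul_le_mul_of_nonneg_left (hM n) (sq_nonneg _)
            _ = (repF B n : ℝ) * ((repF B n : ℝ) * ∑ t ∈ range (g + 1), φ t) := by ring
            _ ≤ (g : ℝ) * ((repF B n : ℝ) * ∑ t ∈ range (g + 1), φ t) :=
                mul_le_mul_of_nonneg_right h1 (mul_nonneg h0 hM0)
            _ = _ := by ring
      _ = ((g : ℝ) * ∑ t ∈ range (g + 1), φ t) * ((∑ n ∈ sums B, repF B n : ℕ) : ℝ) := by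
          rw [← Finset.mul_sum]
          push_cast
          rfl
      _ = _ := by
          rw [sum_repF]
          push_cast
          rfl
  · intro h
    exact (sharp A).2 ⟨φ, hφ0, hφ, h⟩

end Pool.Agent.Helper44.LB
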