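import Pool.Agent.Helper44.LB.Cube

set_option autoImplicit false

/-!
# Cubes in finite subsets: the Gowers norms
-/

namespace Pool.Agent.Helper44.LB

open Finset Filter

/-- The cubes of dimension `k` with all vertices in `B`, degenerate ones included. -/
def cubes (k : ℕ) (B : Finset ℕ) : Set (ℤ × (Fin k → ℤ)) :=
  {p | ∀ S : Finset (Fin k), ∃ b ∈ B, (b : ℤ) = p.1 + ∑ i ∈ S, p.2 i}

/-- Elements `b` of `B` with `b + h ∈ B`. -/
noncomputable def shf (B : Finset ℕ) (h : ℤ) : Finset ℕ := by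
  classical
  exact B.filter (fun b => ∃ b' ∈ B, (b' : ℤ) = b + h)

lemma shf_sub (B : Finset ℕ) (h : ℤ) : shf B h ⊆ B := by
  unfold shf
  exact filter_subset _ _

lemma mem_shf {B : Finset ℕ} {h : ℤ} {b : ℕ} :
    b ∈ shf B h ↔ b ∈ B ∧ ∃ b' ∈ B, (b' : ℤ) = b + h := by
  unfold shf
  rw [mem_filter]

/-- The energy is the sum of the squares of the sizes of the shifted intersections. -/
lemma sum_shf (B : Finset ℕ) :
    ∑ h ∈ Df B, ((shf B (-h)).card : ℝ) ^ 2 = En B (fun _ => 1) := by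
  unfold En
  rw [G_eq]
  refine Finset.sum_congr rfl fun h _ => ?_
  have key : R B (fun _ => 1) (fun _ => 1) h = ((shf B (-h)).card : ℝ) := by
    unfold R
    have h1 : ∑ p ∈ B ×ˢ B, (if (p.1 : ℤ) - p.2 = h then (1 : ℝ) * 1 else 0) =
        (((B ×ˢ B).filter (fun p => (p.1 : ℤ) - p.2 = h)).card : ℝ) := by
      rw [← Finset.sum_filter]
      simp
    rw [h1]
    congr 1
    apply Finset.card_bij (fun p _ => p.1)
    · intro p hp
      rw [mem_filter, mem_product] at hp
      rw [mem_shf]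
      exact ⟨hp.1.1, p.2, hp.1.2, by omega⟩
    · intro p hp p' hp' h2
      rw [mem_filter, mem_product] at hp hp'
      refine Prod.ext h2 ?_
      omega
    · intro b hb
      rw [mem_shf] at hb
      obtain ⟨hb1, b', hb', h2⟩ := hb
      exact ⟨(b, b'), by rw [mem_filter, mem_product]; exact ⟨⟨hb1, hb'⟩, by simp only; omega⟩, rfl⟩
  rw [key, sq]

lemma cubes_finite (k : ℕ) (B : Finset ℕ) : (cubes k B).Finite := by
  classical
  have hsub : cubes k B ⊆ (fun q : ℕ × (Fin k → ℕ) => ((q.1 : ℤ), fun i => (q.2 i : ℤ) - q.1)) ''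
      ((B : Set ℕ) ×ˢ (Set.univ.pi (fun _ : Fin k => (B : Set ℕ)))) := by
    intro p hp
    obtain ⟨b, hb, h0⟩ := hp ∅
    have h1 : ∀ i : Fin k, ∃ c ∈ B, (c : ℤ) = p.1 + p.2 i := by
      intro i
      obtain ⟨c, hc, h⟩ := hp {i}
      rw [sum_singleton] at h
      exact ⟨c, hc, h⟩
    choose c hc h using h1
    rw [sum_empty, add_zero] at h0
    refine ⟨(b, c), ⟨hb, fun i _ => hc i⟩, ?_⟩
    refine Prod.ext h0 ?_
    funext i
    simp only
    rw [h i, h0]
    ring
  apply Set.Finite.subset _ hsub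
  apply Set.Finite.image
  apply Set.Finite.prod (Finset.finite_toSet B)
  exact Set.Finite.pi' (fun _ => Finset.finite_toSet B) |>.subset (fun f hf i => hf i (Set.mem_univ i))

lemma cubes_one (B : Finset ℕ) : (cubes 1 B).ncard ≤ B.card ^ 2 := by
  classical
  have h : ∀ p : ℤ × (Fin 1 → ℤ), p ∈ cubes 1 B →
      (p.1.toNat, (p.1 + p.2 0).toNat) ∈ ((B ×ˢ B : Finset (ℕ × ℕ)) : Set (ℕ × ℕ)) := by
    intro p hp
    obtain ⟨b, hb, h0⟩ := hp ∅
    obtain ⟨c, hc, h1⟩ := hp {0}
    rw [sum_empty, add_zero] at h0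
    rw [sum_singleton] at h1
    rw [Finset.mem_coe, mem_product, ← h1, ← h0]
    simpa using ⟨hb, hc⟩
  calc (cubes 1 B).ncard ≤ ((B ×ˢ B : Finset (ℕ × ℕ)) : Set (ℕ × ℕ)).ncard := by
        apply Set.ncard_le_ncard_of_injOn (fun p => (p.1.toNat, (p.1 + p.2 0).toNat)) h
        · intro p hp p' hp' hpp
          obtain ⟨b, hb, h0⟩ := hp ∅
          obtain ⟨c, hc, h1⟩ := hp {0}
          obtain ⟨b', hb', h0'⟩ := hp' ∅
          obtain ⟨c', hc', h1'⟩ := hp' {0}
          rw [sum_empty, add_zero] at h0 h0'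
          rw [sum_singleton] at h1 h1'
          simp only [Prod.mk.injEq] at hpp
          obtain ⟨e1, e2⟩ := hpp
          have e3 : p.1 = p'.1 := by omega
          refine Prod.ext e3 ?_
          funext i
          have hi : i = 0 := Subsingleton.elim _ _
          rw [hi]
          omega
    _ = B.card ^ 2 := by rw [Set.ncard_coe_finset, card_product, sq]

/-- One more dimension. -/
lemma cubes_succ (k : ℕ) (B : Finset ℕ) :
    (cubes (k + 1) B).ncard ≤ ∑ h ∈ Df B, (cubes k (shf B (-h))).ncard := by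
  classical
  have hfin : ∀ h, (cubes k (shf B (-h))).Finite := fun h => cubes_finite k _
  set T : Finset (ℤ × (ℤ × (Fin k → ℤ))) :=
    (Df B).biUnion (fun h => (hfin h).toFinset.image (fun p => (h, p))) with hT
  have hTc : T.card ≤ ∑ h ∈ Df B, (cubes k (shf B (-h))).ncard := by
    refine card_biUnion_le.trans (Finset.sum_le_sum fun h _ => ?_)
    refine card_image_le.trans (le_of_eq ?_)
    rw [Set.ncard_eq_toFinset_card _ (hfin h)]
  refine le_trans ?_ hTc
  rw [← Set.ncard_coe_finset]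
  apply Set.ncard_le_ncard_of_injOn
    (fun p : ℤ × (Fin (k + 1) → ℤ) => (-(p.2 0), (p.1, fun i : Fin k => p.2 i.succ)))
  · intro p hp
    obtain ⟨b, hb, h0⟩ := hp ∅
    obtain ⟨c, hc, h1⟩ := hp {0}
    rw [sum_empty, add_zero] at h0
    rw [sum_singleton] at h1
    rw [Finset.mem_coe, hT, mem_biUnion]
    refine ⟨-(p.2 0), ?_, ?_⟩
    · unfold Df
      rw [mem_image]
      exact ⟨(b, c), mem_product.2 ⟨hb, hc⟩, by simp only; omega⟩
    · rw [mem_image]
      refine ⟨(p.1, fun i : Fin k => p.2 i.succ), ?_, rfl⟩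
      rw [Set.Finite.mem_toFinset]
      intro S
      obtain ⟨b1, hb1, e1⟩ := hp (S.map (Fin.succEmb k))
      obtain ⟨b2, hb2, e2⟩ := hp (insert 0 (S.map (Fin.succEmb k)))
      have hnot : (0 : Fin (k + 1)) ∉ S.map (Fin.succEmb k) := by
        intro h
        rw [Finset.mem_map] at h
        obtain ⟨i, _, hi⟩ := h
        exact Fin.succ_ne_zero i hi
      rw [sum_insert hnot] at e2
      rw [sum_map] at e1 e2
      refine ⟨b1, ?_, e1⟩
      rw [mem_shf, neg_neg]
      refine ⟨hb1, b2, hb2, ?_⟩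
      rw [e2, e1]
      ring
  · intro p hp p' hp' hpp
    simp only [Prod.mk.injEq, neg_inj] at hpp
    obtain ⟨e1, e2, e3⟩ := hpp
    refine Prod.ext e2 ?_
    funext i
    refine Fin.cases ?_ (fun j => ?_) i
    · exact e1
    · exact congrFun e3 j

/-- The number of cubes of each dimension in finite subsets. -/
theorem cubes_le (A : Set ℕ) (C : ℝ) (hC0 : 0 ≤ C)
    (hC : ∀ B : Finset ℕ, (∀ a ∈ B, a ∈ A) → En B (fun _ => 1) ≤ C * (B.card : ℝ) ^ 2) (k : ℕ) :
    ∀ B : Finset ℕ, (∀ a ∈ B, a ∈ A) →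
      ((cubes (k + 1) B).ncard : ℝ) ≤ C ^ k * (B.card : ℝ) ^ 2 := by
  induction k with
  | zero =>
    intro B _
    rw [pow_zero, one_mul]
    exact_mod_cast cubes_one B
  | succ k ih =>
    intro B hB
    have h1 : ((cubes (k + 1 + 1) B).ncard : ℝ) ≤
        ∑ h ∈ Df B, ((cubes (k + 1) (shf B (-h))).ncard : ℝ) := by
      exact_mod_cast cubes_succ (k + 1) B
    have h2 : ∑ h ∈ Df B, ((cubes (k + 1) (shf B (-h))).ncard : ℝ) ≤
        ∑ h ∈ Df B, C ^ k * ((shf B (-h)).card : ℝ) ^ 2 :=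
      Finset.sum_le_sum fun h _ => ih _ (fun a ha => hB a (shf_sub B _ ha))
    refine h1.trans (h2.trans ?_)
    rw [← Finset.mul_sum, sum_shf]
    calc C ^ k * En B (fun _ => 1) ≤ C ^ k * (C * (B.card : ℝ) ^ 2) :=
          mul_le_mul_of_nonneg_left (hC B hB) (pow_nonneg hC0 k)
      _ = C ^ (k + 1) * (B.card : ℝ) ^ 2 := by ring

end Pool.Agent.Helper44.LB
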