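import Mathlib

set_option autoImplicit false

/-!
# Littlewood-Paley for positive coefficients (exponent four)
-/

namespace Pool.Agent.Helper44.LB

open Finset

/-- The correlation form: pairs `p`, `r` with `p.1 - p.2 = r.1 - r.2`. -/
noncomputable def G (F : Finset ℕ) (v y x u : ℕ → ℝ) : ℝ :=
  ∑ p ∈ F ×ˢ F, ∑ r ∈ F ×ˢ F,
    if p.1 + r.2 = r.1 + p.2 then (v p.1 * y p.2) * (x r.1 * u r.2) else 0

/-- The energy. -/
noncomputable def En (F : Finset ℕ) (w : ℕ → ℝ) : ℝ := G F w w w w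

/-- Correlation at `m`. -/
noncomputable def R (F : Finset ℕ) (v y : ℕ → ℝ) (m : ℤ) : ℝ :=
  ∑ p ∈ F ×ˢ F, if (p.1 : ℤ) - p.2 = m then v p.1 * y p.2 else 0

/-- All differences. -/
def Df (F : Finset ℕ) : Finset ℤ := (F ×ˢ F).image (fun p => (p.1 : ℤ) - p.2)

lemma G_eq (F : Finset ℕ) (v y x u : ℕ → ℝ) :
    G F v y x u = ∑ m ∈ Df F, R F v y m * R F x u m := by
  unfold R
  simp_rw [Finset.sum_mul_sum]
  rw [Finset.sum_comm]
  unfold G
  refine Finset.sum_congr rfl fun p hp => ?_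
  rw [Finset.sum_comm]
  refine Finset.sum_congr rfl fun r hr => ?_
  rw [Finset.sum_eq_single ((p.1 : ℤ) - p.2)]
  · rw [if_pos rfl]
    by_cases h : p.1 + r.2 = r.1 + p.2
    · rw [if_pos h, if_pos (by omega)]
    · rw [if_neg h, if_neg (by omega), mul_zero]
  · intro m _ hm
    rw [if_neg (fun h => hm h.symm), zero_mul]
  · intro h
    exact absurd (mem_image_of_mem _ hp) h

lemma G_self_nonneg (F : Finset ℕ) (v y : ℕ → ℝ) : 0 ≤ G F v y v y := by
  rw [G_eq]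
  exact Finset.sum_nonneg fun m _ => mul_self_nonneg _

/-- Cauchy-Schwarz. -/
lemma G_cs (F : Finset ℕ) (v y x u : ℕ → ℝ) :
    G F v y x u ^ 2 ≤ G F v y v y * G F x u x u := by
  rw [G_eq, G_eq F v y v y, G_eq F x u x u]
  refine (Finset.sum_mul_sq_le_sq_mul_sq _ _ _).trans (le_of_eq ?_)
  congr 1
  · exact Finset.sum_congr rfl fun m _ => sq _
  · exact Finset.sum_congr rfl fun m _ => sq _

lemma G_swap (F : Finset ℕ) (v y : ℕ → ℝ) : G F v y v y = G F v v y y := by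
  unfold G
  simp_rw [Finset.sum_product]
  refine Finset.sum_congr rfl fun a _ => ?_
  rw [Finset.sum_comm]
  refine Finset.sum_congr rfl fun c _ => ?_
  refine Finset.sum_congr rfl fun b _ => ?_
  refine Finset.sum_congr rfl fun d _ => ?_
  by_cases h : a + d = c + b
  · rw [if_pos h, if_pos (by omega)]
    ring
  · rw [if_neg h, if_neg (by omega)]

lemma G_four (F : Finset ℕ) (v y : ℕ → ℝ) : G F v y v y ^ 2 ≤ En F v * En F y := by
  rw [G_swap]
  exact G_cs F v v y y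

/-- The four-fold sum form. -/
lemma En_eq (F : Finset ℕ) (w : ℕ → ℝ) : En F w = ∑ a ∈ F, ∑ b ∈ F, ∑ c ∈ F, ∑ d ∈ F,
    if a + b = c + d then w a * w b * w c * w d else 0 := by
  unfold En G
  simp_rw [Finset.sum_product]
  refine Finset.sum_congr rfl fun a _ => ?_
  rw [Finset.sum_comm]
  rw [Finset.sum_comm]
  have h : ∀ f : ℕ → ℕ → ℕ → ℝ, ∑ d ∈ F, ∑ c ∈ F, ∑ b ∈ F, f b c d
      = ∑ b ∈ F, ∑ c ∈ F, ∑ d ∈ F, f b c d := by
    intro f
    calc ∑ d ∈ F, ∑ c ∈ F, ∑ b ∈ F, f b c d = ∑ d ∈ F, ∑ b ∈ F, ∑ c ∈ F, f b c d :=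
          Finset.sum_congr rfl fun d _ => Finset.sum_comm
      _ = ∑ b ∈ F, ∑ d ∈ F, ∑ c ∈ F, f b c d := Finset.sum_comm
      _ = ∑ b ∈ F, ∑ c ∈ F, ∑ d ∈ F, f b c d :=
          Finset.sum_congr rfl fun b _ => Finset.sum_comm
  rw [← h (fun b c d => if a + b = c + d then w a * w b * w c * w d else 0)]
  refine Finset.sum_congr rfl fun d _ => ?_
  refine Finset.sum_congr rfl fun c _ => ?_
  refine Finset.sum_congr rfl fun b _ => ?_
  by_cases h : a + b = c + d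
  · rw [if_pos h, if_pos (by omega)]
    ring
  · rw [if_neg h, if_neg (by omega)]

end Pool.Agent.Helper44.LB
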