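import Pool.Agent.Helper44.LB.Final
import Pool.Agent.Helper60.LB.Exp

set_option autoImplicit false

namespace Pool.Agent.Helper44.LB

open Finset Filter

/-- The number of ordered pairs of elements of `B` with sum `n`. -/
def repF (B : Finset ℕ) (n : ℕ) : ℕ := ((B ×ˢ B).filter (fun p => p.1 + p.2 = n)).card

/-- The set `B + B`. -/
def sums (B : Finset ℕ) : Finset ℕ := (B ×ˢ B).image (fun p => p.1 + p.2)

lemma sum_repF (B : Finset ℕ) : ∑ n ∈ sums B, repF B n = B.card ^ 2 := by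
  unfold sums repF
  rw [← Finset.card_eq_sum_card_image, card_product, sq]

lemma sum_sq (B : Finset ℕ) : ∑ n ∈ sums B, (repF B n : ℝ) ^ 2 = En B (fun _ => 1) := by
  rw [En_sum]
  have h : ∀ n, (repF B n : ℝ) = ∑ p ∈ B ×ˢ B, if p.1 + p.2 = n then (1 : ℝ) else 0 := by
    intro n
    unfold repF
    rw [Finset.sum_boole]
  simp_rw [h, sq, Finset.sum_mul_sum]
  rw [Finset.sum_comm]
  refine Finset.sum_congr rfl fun p hp => ?_
  rw [Finset.sum_comm]
  refine Finset.sum_congr rfl fun r _ => ?_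
  rw [Finset.sum_eq_single (p.1 + p.2)]
  · rw [if_pos rfl]
    by_cases h' : p.1 + p.2 = r.1 + r.2
    · rw [if_pos h', if_pos h'.symm]
      norm_num
    · rw [if_neg h', if_neg (fun h'' => h' h''.symm), mul_zero]
  · intro m _ hm
    rw [if_neg (fun h' => hm h'.symm), zero_mul]
  · intro h'
    exact absurd (mem_image_of_mem _ hp) h'

lemma repF_le_ncard (A : Set ℕ) (B : Finset ℕ) (hB : ∀ a ∈ B, a ∈ A) (n : ℕ) :
    repF B n ≤ ({p : ℕ × ℕ | p.1 ∈ A ∧ p.2 ∈ A ∧ p.1 + p.2 = n} : Set (ℕ × ℕ)).ncard := by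
  unfold repF
  rw [← Set.ncard_coe_finset]
  apply Set.ncard_le_ncard _ (Pool.Agent.Helper3.Thin.rep_finite A n)
  intro p hp
  rw [Finset.mem_coe, mem_filter, mem_product] at hp
  exact ⟨hB _ hp.1.1, hB _ hp.1.2, hp.2⟩

/-- All elements of `A` occurring in a representation of `n` form a finite set `B` with
`repF B n = B.card = rep A n`. -/
lemma exists_fib (A : Set ℕ) (n : ℕ) : ∃ B : Finset ℕ, (∀ a ∈ B, a ∈ A) ∧
    repF B n = ({p : ℕ × ℕ | p.1 ∈ A ∧ p.2 ∈ A ∧ p.1 + p.2 = n} : Set (ℕ × ℕ)).ncard ∧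
    B.card = ({p : ℕ × ℕ | p.1 ∈ A ∧ p.2 ∈ A ∧ p.1 + p.2 = n} : Set (ℕ × ℕ)).ncard := by
  classical
  set B : Finset ℕ := (range (n + 1)).filter (fun a => a ∈ A ∧ n - a ∈ A) with hB
  have hmem : ∀ a, a ∈ B ↔ a ≤ n ∧ a ∈ A ∧ n - a ∈ A := by
    intro a
    rw [hB, mem_filter, mem_range]
    constructor
    · rintro ⟨h1, h2⟩
      exact ⟨by omega, h2⟩
    · rintro ⟨h1, h2⟩
      exact ⟨by omega, h2⟩
  have h1 : ({p : ℕ × ℕ | p.1 ∈ A ∧ p.2 ∈ A ∧ p.1 + p.2 = n} : Set (ℕ × ℕ)) =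
      ((B.image (fun a => (a, n - a)) : Finset (ℕ × ℕ)) : Set (ℕ × ℕ)) := by
    ext p
    simp only [Set.mem_ofPred_eq, Finset.coe_image, Set.mem_image, Finset.mem_coe]
    constructor
    · rintro ⟨h1, h2, h3⟩
      refine ⟨p.1, (hmem _).2 ⟨by omega, h1, ?_⟩, ?_⟩
      · have : n - p.1 = p.2 := by omega
        rw [this]
        exact h2
      · refine Prod.ext rfl ?_
        simp only
        omega
    · rintro ⟨a, ha, rfl⟩
      obtain ⟨h1, h2, h3⟩ := (hmem a).1 ha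
      exact ⟨h2, h3, by simp only; omega⟩
  have h2 : ({p : ℕ × ℕ | p.1 ∈ A ∧ p.2 ∈ A ∧ p.1 + p.2 = n} : Set (ℕ × ℕ)).ncard = B.card := by
    rw [h1, Set.ncard_coe_finset, card_image_of_injective]
    intro a b hab
    exact (Prod.mk.injEq _ _ _ _ ▸ hab).1
  refine ⟨B, fun a ha => ((hmem a).1 ha).2.1, ?_, h2.symm⟩
  rw [h2]
  unfold repF
  have h3 : (B ×ˢ B).filter (fun p => p.1 + p.2 = n) = B.image (fun a => (a, n - a)) := by
    ext p
    rw [mem_filter, mem_product, mem_image]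
    constructor
    · rintro ⟨⟨h4, h5⟩, h6⟩
      refine ⟨p.1, h4, ?_⟩
      refine Prod.ext rfl ?_
      simp only
      omega
    · rintro ⟨a, ha, rfl⟩
      obtain ⟨h4, h5, h6⟩ := (hmem a).1 ha
      refine ⟨⟨ha, (hmem _).2 ⟨by simp only; omega, h6, ?_⟩⟩, by simp only; omega⟩
      have : n - (n - a) = a := by omega
      simp only
      rw [this]
      exact h5
  rw [h3, card_image_of_injective]
  intro a b hab
  exact (Prod.mk.injEq _ _ _ _ ▸ hab).1

/-- The endpoint: bounded representation function = hereditary second moment with a weight tending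
to infinity. -/
theorem sharp (A : Set ℕ) :
    (∃ g : ℕ, ∀ n : ℕ,
      ({p : ℕ × ℕ | p.1 ∈ A ∧ p.2 ∈ A ∧ p.1 + p.2 = n} : Set (ℕ × ℕ)).ncard ≤ g) ↔
    ∃ φ : ℕ → ℝ, (∀ t, 0 ≤ φ t) ∧ Tendsto φ atTop atTop ∧ ∃ C : ℝ, ∀ B : Finset ℕ,
      (∀ a ∈ B, a ∈ A) →
        ∑ n ∈ sums B, (repF B n : ℝ) ^ 2 * φ (repF B n) ≤ C * (B.card : ℝ) ^ 2 := by
  constructor
  · rintro ⟨g, hg⟩
    refine ⟨fun t => (t : ℝ), fun t => Nat.cast_nonneg t, tendsto_natCast_atTop_atTop,
      (g : ℝ) ^ 2, ?_⟩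
    intro B hB
    have hr : ∀ n, (repF B n : ℝ) ≤ g := by
      intro n
      exact_mod_cast (repF_le_ncard A B hB n).trans (hg n)
    calc ∑ n ∈ sums B, (repF B n : ℝ) ^ 2 * (repF B n : ℝ)
        ≤ ∑ n ∈ sums B, (g : ℝ) ^ 2 * (repF B n : ℝ) := by
          refine Finset.sum_le_sum fun n _ => ?_
          apply mul_le_mul_of_nonneg_right _ (Nat.cast_nonneg _)
          exact pow_le_pow_left₀ (Nat.cast_nonneg _) (hr n) 2
      _ = (g : ℝ) ^ 2 * ((∑ n ∈ sums B, repF B n : ℕ) : ℝ) := by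
          rw [← Finset.mul_sum]
          push_cast
          rfl
      _ = _ := by
          rw [sum_repF]
          push_cast
          rfl
  · rintro ⟨φ, hφ0, hφ, C, hC⟩
    obtain ⟨T, hT⟩ := (tendsto_atTop.1 hφ (C + 1)).exists_forall_of_atTop
    refine ⟨T, fun n => ?_⟩
    obtain ⟨B, hB1, hB2, hB3⟩ := exists_fib A n
    rw [← hB2]
    by_contra hcon
    push Not at hcon
    have h1 := hC B hB1
    have hn : n ∈ sums B := by
      by_contra h
      have : repF B n = 0 := by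
        unfold repF
        rw [card_eq_zero, filter_eq_empty_iff]
        intro p hp hpn
        apply h
        unfold sums
        rw [mem_image]
        exact ⟨p, hp, hpn⟩
      omega
    have h2 : (repF B n : ℝ) ^ 2 * φ (repF B n) ≤ C * (B.card : ℝ) ^ 2 :=
      (Finset.single_le_sum (f := fun n => (repF B n : ℝ) ^ 2 * φ (repF B n))
        (fun m _ => mul_nonneg (sq_nonneg _) (hφ0 _)) hn).trans h1
    have h3 : (B.card : ℝ) = repF B n := by rw [hB3, hB2]
    have h4 : (0 : ℝ) < (repF B n : ℝ) ^ 2 := by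
      have : 0 < repF B n := by omega
      positivity
    have h5 := hT (repF B n) hcon.le
    rw [h3] at h2
    nlinarith

end Pool.Agent.Helper44.LB
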